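import Pool.Agent.TH16.PT.Crit

/-! Averaging operators of finite groups in unitary representations. -/

set_option autoImplicit false

namespace Pool.Agent.TH16.PT

open scoped InnerProductSpace

variable {H : Type*} [NormedAddCommGroup H] [InnerProductSpace ℂ H] [CompleteSpace H]

lemma unit_inner (u : unitary (H →L[ℂ] H)) (x y : H) :
    ⟪(u : H →L[ℂ] H) x, y⟫_ℂ = ⟪x, ((u⁻¹ : unitary (H →L[ℂ] H)) : H →L[ℂ] H) y⟫_ℂ := by
  change _ = ⟪x, (star (u : H →L[ℂ] H)) y⟫_ℂ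
  rw [ContinuousLinearMap.star_eq_adjoint, ContinuousLinearMap.adjoint_inner_right]

lemma unit_mul (u w : unitary (H →L[ℂ] H)) (x : H) :
    ((u * w : unitary (H →L[ℂ] H)) : H →L[ℂ] H) x = (u : H →L[ℂ] H) ((w : H →L[ℂ] H) x) := rfl

lemma unit_inner_inner (u : unitary (H →L[ℂ] H)) (x y : H) :
    ⟪(u : H →L[ℂ] H) x, (u : H →L[ℂ] H) y⟫_ℂ = ⟪x, y⟫_ℂ := by
  rw [unit_inner, ← unit_mul, inv_mul_cancel]
  rfl

lemma unit_norm (u : unitary (H →L[ℂ] H)) (x : H) : ‖(u : H →L[ℂ] H) x‖ = ‖x‖ := by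
  have h := unit_inner_inner u x x
  rw [inner_self_eq_norm_sq_to_K, inner_self_eq_norm_sq_to_K] at h
  have h2 : ‖(u : H →L[ℂ] H) x‖ ^ 2 = ‖x‖ ^ 2 := by exact_mod_cast h
  exact (sq_eq_sq₀ (norm_nonneg _) (norm_nonneg _)).mp h2

variable {A : Type*} [Group A] [Fintype A]

/-- average over a finite group -/
noncomputable def av (π : A →* unitary (H →L[ℂ] H)) : H →ₗ[ℂ] H :=
  ((Fintype.card A : ℂ)⁻¹) • ∑ a : A, ((π a : H →L[ℂ] H) : H →ₗ[ℂ] H)

variable (π : A →* unitary (H →L[ℂ] H))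

lemma av_apply (v : H) : av π v = ((Fintype.card A : ℂ)⁻¹) • ∑ a : A, (π a : H →L[ℂ] H) v := by
  unfold av
  simp

lemma card_ne : (Fintype.card A : ℂ) ≠ 0 := by
  exact_mod_cast Fintype.card_ne_zero

lemma pi_av (b : A) (v : H) : (π b : H →L[ℂ] H) (av π v) = av π v := by
  rw [av_apply, map_smul, map_sum]
  congr 1
  rw [← Equiv.sum_comp (Equiv.mulLeft b) (fun a => (π a : H →L[ℂ] H) v)]
  refine Finset.sum_congr rfl fun a _ => ?_
  rw [Equiv.coe_mulLeft, map_mul, unit_mul]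

lemma av_fix (v : H) (h : ∀ a, (π a : H →L[ℂ] H) v = v) : av π v = v := by
  rw [av_apply, Finset.sum_congr rfl fun a _ => h a]
  simp only [Finset.sum_const, Finset.card_univ]
  rw [← Nat.cast_smul_eq_nsmul ℂ, smul_smul, inv_mul_cancel₀ card_ne, one_smul]

lemma av_isOP : IsOP (av π) := by
  refine ⟨fun x => av_fix π _ fun a => pi_av π a x, fun x y => ?_⟩
  rw [av_apply, av_apply, inner_smul_left, inner_smul_right, sum_inner, inner_sum]
  congr 1
  · simp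
  · rw [← Equiv.sum_comp (Equiv.inv A)]
    refine Finset.sum_congr rfl fun a _ => ?_
    rw [unit_inner, Equiv.inv_apply, ← map_inv, inv_inv]

lemma av_cont : Continuous (av π) := by
  have : (av π : H → H) = fun v => ((Fintype.card A : ℂ)⁻¹) • ∑ a : A, (π a : H →L[ℂ] H) v := by
    funext v; exact av_apply π v
  rw [this]
  fun_prop

lemma av_dist (v : H) (δ : ℝ) (h : ∀ a, ‖(π a : H →L[ℂ] H) v - v‖ ≤ δ) : ‖av π v - v‖ ≤ δ := by
  have h1 : av π v - v = ((Fintype.card A : ℂ)⁻¹) • ∑ a : A, ((π a : H →L[ℂ] H) v - v) := by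
    rw [av_apply, Finset.sum_sub_distrib, smul_sub]
    congr 1
    simp only [Finset.sum_const, Finset.card_univ]
    rw [← Nat.cast_smul_eq_nsmul ℂ, smul_smul, inv_mul_cancel₀ card_ne, one_smul]
  rw [h1, norm_smul]
  have h2 : ‖∑ a : A, ((π a : H →L[ℂ] H) v - v)‖ ≤ (Fintype.card A : ℝ) * δ := by
    refine (norm_sum_le _ _).trans ?_
    refine (Finset.sum_le_sum fun a _ => h a).trans ?_
    simp
  have h3 : ‖((Fintype.card A : ℂ)⁻¹)‖ = (Fintype.card A : ℝ)⁻¹ := by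
    rw [norm_inv]; simp
  rw [h3]
  have h4 : (0 : ℝ) < Fintype.card A := by exact_mod_cast Fintype.card_pos
  rw [inv_mul_le_iff₀ h4]
  exact h2

end Pool.Agent.TH16.PT
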