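import Pool.Agent.TH16.PT.Cnt
import Pool.Agent.TH16.PT.Avg

/-! The angle between the fixed spaces of two vector stabilizers. -/

set_option autoImplicit false

namespace Pool.Agent.TH16.PT

open Matrix
open scoped InnerProductSpace

variable {H : Type*} [NormedAddCommGroup H] [InnerProductSpace ℂ H] [CompleteSpace H]
  (π : LL →* unitary (H →L[ℂ] H))

open Classical in
/-- orthogonality indicator -/
noncomputable def chi (f y : Fin 3 → k7) (g : LL) : ℂ := if hf y (act g f) = 0 then 1 else 0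

/-- sum over the vectors orthogonal to `y` -/
noncomputable def TT (f : Fin 3 → k7) (v : H) (y : Fin 3 → k7) : H :=
  ∑ g : LL, chi f y g • (π g : H →L[ℂ] H) v

lemma chi_act (f y : Fin 3 → k7) (g h : LL) : chi f (act g y) (g * h) = chi f y h := by
  unfold chi
  rw [act_mul, hf_act]

lemma TT_act (f : Fin 3 → k7) (v : H) (g : LL) (y : Fin 3 → k7) :
    TT π f v (act g y) = (π g : H →L[ℂ] H) (TT π f v y) := by
  unfold TT
  rw [map_sum, ← Equiv.sum_comp (Equiv.mulLeft g)]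
  refine Finset.sum_congr rfl fun h _ => ?_
  rw [Equiv.coe_mulLeft, chi_act, map_smul, map_mul, unit_mul]

lemma TT_norm (f : Fin 3 → k7) (v : H) (g : LL) (y : Fin 3 → k7) :
    ‖TT π f v (act g y)‖ = ‖TT π f v y‖ := by
  rw [TT_act, unit_norm]

lemma conj_chi (f y : Fin 3 → k7) (g : LL) : (starRingEnd ℂ) (chi f y g) = chi f y g := by
  unfold chi
  split_ifs <;> simp

lemma inner_TT (f : Fin 3 → k7) (v : H) (y : Fin 3 → k7) :
    ⟪TT π f v y, TT π f v y⟫_ℂ = ∑ g : LL, ∑ g' : LL, chi f y g * chi f y g' *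
      ⟪(π g : H →L[ℂ] H) v, (π g' : H →L[ℂ] H) v⟫_ℂ := by
  unfold TT
  rw [sum_inner]
  refine Finset.sum_congr rfl fun g _ => ?_
  rw [inner_sum]
  refine Finset.sum_congr rfl fun g' _ => ?_
  rw [inner_smul_left, inner_smul_right, conj_chi, mul_assoc]

open Classical in
/-- proportionality indicator -/
noncomputable def del (f : Fin 3 → k7) (g g' : LL) : ℝ :=
  if ∃ c : k7, act g' f = c • act g f then 1 else 0

lemma sum_chi (f : Fin 3 → k7) (hf1 : hf f f = 1) (g g' : LL) :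
    ∑ y : Fin 3 → k7, chi f y g * chi f y g' = 49 + 2352 * ((del f g g' : ℝ) : ℂ) := by
  classical
  have h1 : ∀ y : Fin 3 → k7, chi f y g * chi f y g' =
      if hf y (act g f) = 0 ∧ hf y (act g' f) = 0 then (1 : ℂ) else 0 := by
    intro y
    unfold chi
    by_cases ha : hf y (act g f) = 0 <;> by_cases hb : hf y (act g' f) = 0 <;> simp [ha, hb]
  rw [Finset.sum_congr rfl fun y _ => h1 y, Finset.sum_boole, cnt f hf1 g g']
  unfold del
  split_ifs
  · norm_num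
  · norm_num

lemma sum_TT (f : Fin 3 → k7) (hf1 : hf f f = 1) (v : H)
    (hv : ∑ g : LL, (π g : H →L[ℂ] H) v = 0) :
    ∑ y : Fin 3 → k7, ‖TT π f v y‖ ^ 2 ≤ 18816 * kap f * Fintype.card LL * ‖v‖ ^ 2 := by
  classical
  have h1 : ∑ y : Fin 3 → k7, ⟪TT π f v y, TT π f v y⟫_ℂ =
      2352 * ∑ g : LL, ∑ g' : LL, ((del f g g' : ℝ) : ℂ) *
        ⟪(π g : H →L[ℂ] H) v, (π g' : H →L[ℂ] H) v⟫_ℂ := by
    calc ∑ y : Fin 3 → k7, ⟪TT π f v y, TT π f v y⟫_ℂ
        = ∑ y : Fin 3 → k7, ∑ g : LL, ∑ g' : LL, chi f y g * chi f y g' *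
            ⟪(π g : H →L[ℂ] H) v, (π g' : H →L[ℂ] H) v⟫_ℂ :=
          Finset.sum_congr rfl fun y _ => inner_TT π f v y
      _ = ∑ g : LL, ∑ g' : LL, ∑ y : Fin 3 → k7, chi f y g * chi f y g' *
            ⟪(π g : H →L[ℂ] H) v, (π g' : H →L[ℂ] H) v⟫_ℂ := by
          rw [Finset.sum_comm]
          refine Finset.sum_congr rfl fun g _ => ?_
          rw [Finset.sum_comm]
      _ = ∑ g : LL, ∑ g' : LL, (49 * ⟪(π g : H →L[ℂ] H) v, (π g' : H →L[ℂ] H) v⟫_ℂ +
            2352 * (((del f g g' : ℝ) : ℂ) * ⟪(π g : H →L[ℂ] H) v, (π g' : H →L[ℂ] H) v⟫_ℂ)) := by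
          refine Finset.sum_congr rfl fun g _ => Finset.sum_congr rfl fun g' _ => ?_
          rw [← Finset.sum_mul, sum_chi f hf1]; ring
      _ = 49 * ⟪∑ g : LL, (π g : H →L[ℂ] H) v, ∑ g' : LL, (π g' : H →L[ℂ] H) v⟫_ℂ +
          2352 * ∑ g : LL, ∑ g' : LL, ((del f g g' : ℝ) : ℂ) *
        ⟪(π g : H →L[ℂ] H) v, (π g' : H →L[ℂ] H) v⟫_ℂ := by
          rw [sum_inner]
          simp only [inner_sum, Finset.sum_add_distrib, Finset.mul_sum]
      _ = _ := by rw [hv, inner_zero_left, mul_zero, zero_add]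
  have h2 : ((∑ y : Fin 3 → k7, ‖TT π f v y‖ ^ 2 : ℝ) : ℂ) =
      ∑ y : Fin 3 → k7, ⟪TT π f v y, TT π f v y⟫_ℂ := by
    push_cast
    refine Finset.sum_congr rfl fun y _ => ?_
    rw [inner_self_eq_norm_sq_to_K]; rfl
  have h3 : (∑ y : Fin 3 → k7, ‖TT π f v y‖ ^ 2 : ℝ) =
      ‖((∑ y : Fin 3 → k7, ‖TT π f v y‖ ^ 2 : ℝ) : ℂ)‖ := by
    rw [Complex.norm_real, Real.norm_eq_abs, abs_of_nonneg]
    positivity
  rw [h3, h2, h1, norm_mul]
  have h4 : ‖∑ g : LL, ∑ g' : LL, ((del f g g' : ℝ) : ℂ) *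
        ⟪(π g : H →L[ℂ] H) v, (π g' : H →L[ℂ] H) v⟫_ℂ‖ ≤
      ∑ g : LL, (8 * kap f : ℝ) * ‖v‖ ^ 2 := by
    refine (norm_sum_le _ _).trans (Finset.sum_le_sum fun g _ => ?_)
    refine (norm_sum_le _ _).trans ?_
    calc ∑ g' : LL, ‖((del f g g' : ℝ) : ℂ) *
          ⟪(π g : H →L[ℂ] H) v, (π g' : H →L[ℂ] H) v⟫_ℂ‖
        ≤ ∑ g' : LL, del f g g' * ‖v‖ ^ 2 := by
          refine Finset.sum_le_sum fun g' _ => ?_
          rw [norm_mul, Complex.norm_real, Real.norm_eq_abs]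
          have hd : 0 ≤ del f g g' := by unfold del; split_ifs <;> norm_num
          rw [abs_of_nonneg hd]
          apply mul_le_mul_of_nonneg_left _ hd
          refine (norm_inner_le_norm _ _).trans ?_
          rw [unit_norm, unit_norm, sq]
      _ = (∑ g' : LL, del f g g') * ‖v‖ ^ 2 := by rw [Finset.sum_mul]
      _ ≤ (8 * kap f : ℝ) * ‖v‖ ^ 2 := by
          apply mul_le_mul_of_nonneg_right _ (sq_nonneg _)
          unfold del
          rw [Finset.sum_boole]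
          exact_mod_cast prop_le f hf1 g
  have h5 : ‖(2352 : ℂ)‖ = 2352 := by
    rw [show (2352 : ℂ) = ((2352 : ℝ) : ℂ) by norm_num, Complex.norm_real]; norm_num
  rw [h5]
  rw [Finset.sum_const, Finset.card_univ, nsmul_eq_mul] at h4
  calc 2352 * ‖∑ g : LL, ∑ g' : LL, ((del f g g' : ℝ) : ℂ) *
        ⟪(π g : H →L[ℂ] H) v, (π g' : H →L[ℂ] H) v⟫_ℂ‖
      ≤ 2352 * ((Fintype.card LL : ℝ) * ((8 * kap f : ℝ) * ‖v‖ ^ 2)) := by
        apply mul_le_mul_of_nonneg_left h4; norm_num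
    _ = _ := by ring

lemma TT_bound (f f' : Fin 3 → k7) (hf1 : hf f f = 1) (v : H)
    (hv : ∑ g : LL, (π g : H →L[ℂ] H) v = 0) :
    ‖TT π f v f'‖ ^ 2 ≤ 18816 * kap f * kap f' * ‖v‖ ^ 2 := by
  classical
  have h1 : (Fintype.card LL : ℝ) * ‖TT π f v f'‖ ^ 2 ≤
      kap f' * ∑ y : Fin 3 → k7, ‖TT π f v y‖ ^ 2 := by
    calc (Fintype.card LL : ℝ) * ‖TT π f v f'‖ ^ 2
        = ∑ g : LL, ‖TT π f v (act g f')‖ ^ 2 := by
          rw [Finset.sum_congr rfl fun g _ => by rw [TT_norm], Finset.sum_const,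
            Finset.card_univ, nsmul_eq_mul]
      _ = ∑ y : Fin 3 → k7, ∑ g ∈ Finset.univ.filter (fun g : LL => act g f' = y),
            ‖TT π f v (act g f')‖ ^ 2 := by
          rw [Finset.sum_fiberwise]
      _ ≤ ∑ y : Fin 3 → k7, kap f' * ‖TT π f v y‖ ^ 2 := by
          refine Finset.sum_le_sum fun y _ => ?_
          rw [Finset.sum_congr rfl (g := fun _ => ‖TT π f v y‖ ^ 2) (fun g hg => by
            rw [(Finset.mem_filter.mp hg).2]), Finset.sum_const, nsmul_eq_mul]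
          apply mul_le_mul_of_nonneg_right _ (sq_nonneg _)
          exact_mod_cast fib_le f' y
      _ = _ := by rw [Finset.mul_sum]
  have h2 := sum_TT π f hf1 v hv
  have hc : (0 : ℝ) < Fintype.card LL := by exact_mod_cast Fintype.card_pos
  have hk : (0 : ℝ) ≤ kap f' := Nat.cast_nonneg _
  have h3 := mul_le_mul_of_nonneg_left h2 hk
  have h4 : (Fintype.card LL : ℝ) * ‖TT π f v f'‖ ^ 2 ≤
      (Fintype.card LL : ℝ) * (18816 * kap f * kap f' * ‖v‖ ^ 2) := by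
    calc _ ≤ _ := h1
      _ ≤ _ := h3
      _ = _ := by ring
  exact le_of_mul_le_mul_left h4 hc

theorem angle (f f' : Fin 3 → k7) (h1 : hf f f = 1) (h2 : hf f' f' = 1) (h3 : hf f f' = 0)
    (v w : H) (hvf : ∀ g : LL, act g f = f → (π g : H →L[ℂ] H) v = v)
    (hwf : ∀ g : LL, act g f' = f' → (π g : H →L[ℂ] H) w = w)
    (hv : ∑ g : LL, (π g : H →L[ℂ] H) v = 0) :
    ‖⟪v, w⟫_ℂ‖ ≤ 41 / 100 * ‖v‖ * ‖w‖ := by
  classical
  have key : ⟪TT π f v f', w⟫_ℂ =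
      ((Finset.univ.filter fun g : LL => hf f' (act g f) = 0).card : ℂ) * ⟪v, w⟫_ℂ := by
    unfold TT
    rw [sum_inner]
    have : ∀ g : LL, ⟪chi f f' g • (π g : H →L[ℂ] H) v, w⟫_ℂ =
        (if hf f' (act g f) = 0 then (1 : ℂ) else 0) * ⟪v, w⟫_ℂ := by
      intro g
      rw [inner_smul_left, conj_chi]
      unfold chi
      by_cases hg : hf f' (act g f) = 0
      · rw [if_pos hg]
        congr 1
        obtain ⟨s, hs1, hs2⟩ := exists_pair f' f f' (act g f) h2 h1 (hf_symm0 h3) h2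
          (by rw [hf_act, h1]) hg
        have hg2 : (π g : H →L[ℂ] H) v = (π s : H →L[ℂ] H) v := by
          have : (π (s⁻¹ * g) : H →L[ℂ] H) v = v := by
            apply hvf
            rw [act_mul, ← hs2, act_inv_act]
          conv_rhs => rw [← this]
          rw [← unit_mul, ← map_mul, mul_inv_cancel_left]
        rw [hg2, unit_inner, ← map_inv, hwf]
        conv_lhs => rw [← hs1]
        rw [act_inv_act]
      · rw [if_neg hg, zero_mul, zero_mul]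
    rw [Finset.sum_congr rfl fun g _ => this g, ← Finset.sum_mul, Finset.sum_boole]
  have hcard : (kap f * kap f' : ℝ) ≤
      ((Finset.univ.filter fun g : LL => hf f' (act g f) = 0).card : ℝ) := by
    exact_mod_cast perp_ge f f' h1 h2 h3
  set N : ℝ := ((Finset.univ.filter fun g : LL => hf f' (act g f) = 0).card : ℝ) with hN
  have hk1 : (336 : ℝ) ≤ kap f := by exact_mod_cast kap_ge f f' h1 h2 h3
  have hk2 : (336 : ℝ) ≤ kap f' := by exact_mod_cast kap_ge f' f h2 h1 (hf_symm0 h3)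
  have hb := TT_bound π f f' h1 v hv
  have h4 : N * ‖⟪v, w⟫_ℂ‖ ≤ ‖TT π f v f'‖ * ‖w‖ := by
    have := norm_inner_le_norm (𝕜 := ℂ) (TT π f v f') w
    rw [key, norm_mul, Complex.norm_natCast] at this
    exact this
  set t := ‖⟪v, w⟫_ℂ‖ with ht
  set κ : ℝ := kap f * kap f' with hκ
  have ht0 : 0 ≤ t := norm_nonneg _
  have hκ1 : (112896 : ℝ) ≤ κ := by
    rw [hκ]
    nlinarith
  have h5 : κ * t ≤ ‖TT π f v f'‖ * ‖w‖ :=
    (mul_le_mul_of_nonneg_right hcard ht0).trans h4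
  have h6 : (κ * t) ^ 2 ≤ 18816 * κ * (‖v‖ ^ 2 * ‖w‖ ^ 2) := by
    have : (κ * t) ^ 2 ≤ (‖TT π f v f'‖ * ‖w‖) ^ 2 :=
      pow_le_pow_left₀ (by positivity) h5 2
    refine this.trans ?_
    rw [mul_pow]
    have h7 := mul_le_mul_of_nonneg_right hb (sq_nonneg ‖w‖)
    refine h7.trans (le_of_eq ?_)
    rw [hκ]; ring
  have h8 : κ * t ^ 2 ≤ 18816 * (‖v‖ ^ 2 * ‖w‖ ^ 2) := by
    have hκp : 0 < κ := by linarith
    have : κ * (κ * t ^ 2) ≤ κ * (18816 * (‖v‖ ^ 2 * ‖w‖ ^ 2)) := by nlinarith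
    exact le_of_mul_le_mul_left this hκp
  have h9 : t ^ 2 ≤ (41 / 100 * ‖v‖ * ‖w‖) ^ 2 := by
    have : 112896 * t ^ 2 ≤ κ * t ^ 2 := mul_le_mul_of_nonneg_right hκ1 (sq_nonneg _)
    have h10 : 0 ≤ ‖v‖ ^ 2 * ‖w‖ ^ 2 := by positivity
    nlinarith
  exact (pow_le_pow_iff_left₀ ht0 (by positivity) (by norm_num)).mp h9

end Pool.Agent.TH16.PT
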