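import Pool.Agent.TH16.PT.Herm

/-! The field with 49 elements and counting in its unitary geometry. -/

set_option autoImplicit false

namespace Pool.Agent.TH16.PT

open Matrix

/-- the field with 49 elements -/
abbrev k7 := QuadraticAlgebra (ZMod 7) (-1) 0

instance : Fintype k7 :=
  Fintype.ofEquiv (ZMod 7 × ZMod 7) (QuadraticAlgebra.equivProd _ _).symm

instance fact7 : Fact (Nat.Prime 7) := ⟨by norm_num⟩

instance : Fact (∀ r : ZMod 7, r ^ 2 ≠ -1 + 0 * r) := ⟨by decide⟩

theorem card_k7 : Fintype.card k7 = 49 := by decide +kernel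

theorem card_u1 : (Finset.univ.filter fun c : k7 => c * star c = 1).card = 8 := by
  decide +kernel

theorem k7_norm_surj : ∀ c : ZMod 7, ∃ a : k7, a * star a = ⟨c, 0⟩ := by decide +kernel

theorem card_su2 : (Finset.univ.filter fun c : k7 × k7 =>
    c.1 * star c.1 + c.2 * star c.2 = 1).card = 336 := by decide +kernel

theorem k7_norm (c : k7) (hc : star c = c) : ∃ a : k7, a * star a = c := by
  obtain ⟨a, ha⟩ := k7_norm_surj c.re
  refine ⟨a, ?_⟩
  rw [ha]
  have h := congrArg QuadraticAlgebra.im hc
  rw [QuadraticAlgebra.im_star] at h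
  have h2 : ∀ z : ZMod 7, -z = z → z = 0 := by decide
  ext
  · rfl
  · exact (h2 _ h).symm

theorem k7_two : (2 : k7) ≠ 0 := by decide +kernel

lemma ext3 {K : Type*} {x y : Fin 3 → K} (h0 : x 0 = y 0) (h1 : x 1 = y 1) (h2 : x 2 = y 2) :
    x = y := by
  ext i
  fin_cases i
  · exact h0
  · exact h1
  · exact h2

lemma cnt0 (z : Fin 3 → k7) :
    (Finset.univ.filter fun y : Fin 3 → k7 => y 0 = 0 ∧ hf y z = 0).card =
      if z 1 = 0 ∧ z 2 = 0 then 2401 else 49 := by
  by_cases h1 : z 1 = 0
  · by_cases h2 : z 2 = 0
    · rw [if_pos ⟨h1, h2⟩]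
      have e : (Finset.univ.filter fun y : Fin 3 → k7 => y 0 = 0 ∧ hf y z = 0) =
          Finset.univ.image (fun p : k7 × k7 => (![0, p.1, p.2] : Fin 3 → k7)) := by
        ext y
        simp only [Finset.mem_filter, Finset.mem_univ, true_and, Finset.mem_image]
        constructor
        · rintro ⟨h, -⟩
          exact ⟨(y 1, y 2), ext3 h.symm rfl rfl⟩
        · rintro ⟨p, rfl⟩
          refine ⟨rfl, ?_⟩
          unfold hf
          rw [h1, h2]; simp
      rw [e, Finset.card_image_of_injective, Finset.card_univ, Fintype.card_prod, card_k7]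
      intro p q h
      have a := congrFun h 1
      have b := congrFun h 2
      exact Prod.ext a b
    · rw [if_neg (fun h => h2 h.2)]
      have e : (Finset.univ.filter fun y : Fin 3 → k7 => y 0 = 0 ∧ hf y z = 0) =
          Finset.univ.image (fun p : k7 => (![0, p, 0] : Fin 3 → k7)) := by
        ext y
        simp only [Finset.mem_filter, Finset.mem_univ, true_and, Finset.mem_image]
        constructor
        · rintro ⟨h, h'⟩
          unfold hf at h'
          rw [h, h1, star_zero, mul_zero, zero_mul, zero_add, zero_add] at h'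
          have h3 : y 2 = 0 := by
            rcases mul_eq_zero.mp h' with h4 | h4
            · exact h4
            · exact absurd (star_eq_zero.mp h4) h2
          exact ⟨y 1, ext3 h.symm rfl h3.symm⟩
        · rintro ⟨p, rfl⟩
          refine ⟨rfl, ?_⟩
          unfold hf
          rw [h1]; simp
      rw [e, Finset.card_image_of_injective, Finset.card_univ, card_k7]
      intro p q h
      exact congrFun h 1
  · rw [if_neg (fun h => h1 h.1)]
    have hs : star (z 1) ≠ 0 := fun h => h1 (star_eq_zero.mp h)
    have e : (Finset.univ.filter fun y : Fin 3 → k7 => y 0 = 0 ∧ hf y z = 0) =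
        Finset.univ.image (fun p : k7 => (![0, -(p * star (z 2)) / star (z 1), p] : Fin 3 → k7)) := by
      ext y
      simp only [Finset.mem_filter, Finset.mem_univ, true_and, Finset.mem_image]
      constructor
      · rintro ⟨h, h'⟩
        unfold hf at h'
        rw [h, zero_mul, zero_add] at h'
        refine ⟨y 2, ext3 h.symm ?_ rfl⟩
        change -(y 2 * star (z 2)) / star (z 1) = y 1
        rw [div_eq_iff hs]
        linear_combination -h'
      · rintro ⟨p, rfl⟩
        refine ⟨rfl, ?_⟩
        unfold hf
        change 0 * _ + -(p * star (z 2)) / star (z 1) * star (z 1) + p * star (z 2) = 0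
        rw [div_mul_cancel₀ _ hs]; ring
    rw [e, Finset.card_image_of_injective, Finset.card_univ, card_k7]
    intro p q h
    exact congrFun h 2

lemma hf_e0 (y : Fin 3 → k7) : hf y e0 = y 0 := by
  unfold hf e0; simp

/-- the action as a permutation -/
def actE {K : Type*} [Field K] [StarRing K] (g : SU K) : (Fin 3 → K) ≃ (Fin 3 → K) where
  toFun := act g
  invFun := act g⁻¹
  left_inv := act_inv_act g
  right_inv := act_act_inv g

lemma exists_e0 (f : Fin 3 → k7) (hf1 : hf f f = 1) : ∃ g : SU k7, act g e0 = f := by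
  obtain ⟨y, hy, hxy, -⟩ := exists_perp k7_two k7_norm f hf1
  obtain ⟨g, hg, -⟩ := exists_pair e0 e1 f y (by unfold hf e0; simp) (by unfold hf e1; simp)
    (by unfold hf e0 e1; simp) hf1 hy hxy
  exact ⟨g, hg⟩

lemma cnt (f : Fin 3 → k7) (hf1 : hf f f = 1) (g g' : SU k7) :
    (Finset.univ.filter fun y : Fin 3 → k7 => hf y (act g f) = 0 ∧ hf y (act g' f) = 0).card =
      open Classical in if ∃ c : k7, act g' f = c • act g f then 2401 else 49 := by
  classical
  obtain ⟨γ, hγ⟩ := exists_e0 f hf1
  set z := act (g * γ)⁻¹ (act g' f) with hz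
  have h1 : (Finset.univ.filter fun y : Fin 3 → k7 =>
      hf y (act g f) = 0 ∧ hf y (act g' f) = 0).card =
      (Finset.univ.filter fun y : Fin 3 → k7 => y 0 = 0 ∧ hf y z = 0).card := by
    apply Finset.card_equiv (actE (g * γ)⁻¹)
    intro y
    simp only [Finset.mem_filter, Finset.mem_univ, true_and]
    have k1 : hf y (act g f) = (act (g * γ)⁻¹ y) 0 := by
      rw [← hf_e0 (act (g * γ)⁻¹ y), hf_act_left, inv_inv, act_mul, hγ]
    have k2 : hf y (act g' f) = hf (act (g * γ)⁻¹ y) z := by
      rw [hz, hf_act]
    rw [k1, k2]; rfl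
  rw [h1, cnt0]
  have h2 : (z 1 = 0 ∧ z 2 = 0) ↔ ∃ c : k7, act g' f = c • act g f := by
    constructor
    · rintro ⟨a, b⟩
      refine ⟨z 0, ?_⟩
      have k : z = z 0 • e0 := ext3 (by simp [e0]) (by simp [e0, a]) (by simp [e0, b])
      have k2 : act g' f = act (g * γ) z := by rw [hz, act_act_inv]
      rw [k2, k, act_smul, act_mul, hγ]
      simp [e0]
    · rintro ⟨c, hc⟩
      have k : z = c • e0 := by
        rw [hz, hc, act_smul, ← hγ, ← act_mul g γ, act_inv_act]
      rw [k]; simp [e0]
  by_cases h : ∃ c : k7, act g' f = c • act g f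
  · rw [if_pos h, if_pos (h2.mpr h)]
  · rw [if_neg h, if_neg (fun h' => h (h2.mp h'))]

/-- the finite group -/
abbrev LL := SU k7

noncomputable instance : Fintype LL := Fintype.ofFinite _

open Classical in
/-- size of the stabilizer of a vector -/
noncomputable def kap (f : Fin 3 → k7) : ℕ := (Finset.univ.filter fun g : LL => act g f = f).card

/-- an element of the small unitary group as a matrix fixing the last basis vector -/
def s2 {K : Type*} [Field K] [StarRing K] (a b : K) (h : a * star a + b * star b = 1) : SU K :=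
  frm ![a, b, 0] ![-star b, star a, 0] (by unfold hf; simp [h])
    (by unfold hf; simp; linear_combination h) (by unfold hf; simp; ring)

lemma s2_e2 {K : Type*} [Field K] [StarRing K] (a b : K) (h : a * star a + b * star b = 1) :
    act (s2 a b h) e2 = e2 := by
  unfold s2 act frm colm e2 crs
  apply ext3 <;> simp [mulVec, dotProduct, Fin.sum_univ_three]
  linear_combination h

lemma s2_e0 {K : Type*} [Field K] [StarRing K] (a b : K) (h : a * star a + b * star b = 1) :
    act (s2 a b h) e0 = ![a, b, 0] := frm_e0 _ _ _ _ _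

lemma kap_ge (f f' : Fin 3 → k7) (h1 : hf f f = 1) (h2 : hf f' f' = 1) (h3 : hf f f' = 0) :
    336 ≤ kap f := by
  classical
  obtain ⟨γ, hγ, -⟩ := exists_pair (e2 : Fin 3 → k7) e1 f f' (by unfold hf e2; simp)
    (by unfold hf e1; simp) (by unfold hf e2 e1; simp) h1 h2 h3
  rw [← card_su2]
  unfold kap
  apply Finset.card_le_card_of_injOn
    (fun p => if h : p.1 * star p.1 + p.2 * star p.2 = 1 then γ * s2 p.1 p.2 h * γ⁻¹ else 1)
  · intro p hp
    simp only [Finset.coe_filter, Finset.mem_univ, true_and, Set.mem_ofPred_eq] at hp ⊢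
    rw [dif_pos hp, act_mul, act_mul]
    have : act γ⁻¹ f = e2 := by rw [← hγ, act_inv_act]
    rw [this, s2_e2, hγ]
  · intro p hp q hq hpq
    simp only [Finset.coe_filter, Finset.mem_univ, true_and, Set.mem_ofPred_eq] at hp hq
    simp only [dif_pos hp, dif_pos hq] at hpq
    have h4 : s2 p.1 p.2 hp = s2 q.1 q.2 hq := by
      have := mul_right_cancel hpq
      exact mul_left_cancel this
    have h5 := congrArg (fun g => act g (e0 : Fin 3 → k7)) h4
    simp only [s2_e0] at h5
    exact Prod.ext (congrFun h5 0) (congrFun h5 1)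

open Classical in
/-- fibres of the orbit map have at most `kap` elements -/
lemma fib_le (f x : Fin 3 → k7) :
    (Finset.univ.filter fun g : LL => act g f = x).card ≤ kap f := by
  by_cases h : ∃ g : LL, act g f = x
  · obtain ⟨g, hg⟩ := h
    unfold kap
    apply Finset.card_le_card_of_injOn (fun g' => g⁻¹ * g')
    · intro g' hg'
      simp only [Finset.coe_filter, Finset.mem_univ, true_and, Set.mem_ofPred_eq] at hg' ⊢
      rw [act_mul, hg', ← hg, act_inv_act]
    · intro a _ b _ hab
      exact mul_left_cancel hab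
  · have : (Finset.univ.filter fun g : LL => act g f = x) = ∅ := by
      rw [Finset.filter_eq_empty_iff]
      intro g _ hg
      exact h ⟨g, hg⟩
    rw [this]; simp

open Classical in
lemma prop_le (f : Fin 3 → k7) (hf1 : hf f f = 1) (g : LL) :
    (Finset.univ.filter fun g' : LL => ∃ c : k7, act g' f = c • act g f).card ≤ 8 * kap f := by
  have h1 : (Finset.univ.filter fun g' : LL => ∃ c : k7, act g' f = c • act g f).card ≤
      kap f * ((Finset.univ.filter fun g' : LL => ∃ c : k7, act g' f = c • act g f).image
        (fun g' => act g' f)).card := by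
    apply Finset.card_le_mul_card_image
    intro x _
    refine le_trans (Finset.card_le_card ?_) (fib_le f x)
    intro g' hg'
    simp only [Finset.mem_filter, Finset.mem_univ, true_and] at hg' ⊢
    exact hg'.2
  have h2 : ((Finset.univ.filter fun g' : LL => ∃ c : k7, act g' f = c • act g f).image
        (fun g' => act g' f)).card ≤ 8 := by
    rw [← card_u1]
    refine le_trans (Finset.card_le_card (t := (Finset.univ.filter fun c : k7 =>
      c * star c = 1).image (fun c => c • act g f)) ?_) Finset.card_image_le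
    intro x hx
    simp only [Finset.mem_image, Finset.mem_filter, Finset.mem_univ, true_and] at hx ⊢
    obtain ⟨g', ⟨c, hc⟩, rfl⟩ := hx
    refine ⟨c, ?_, hc.symm⟩
    have k1 : hf (act g' f) (act g' f) = 1 := by rw [hf_act, hf1]
    rw [hc, hf_smul_left, hf_smul_right, hf_act, hf1] at k1
    linear_combination k1
  calc _ ≤ _ := h1
    _ ≤ kap f * 8 := Nat.mul_le_mul_left _ h2
    _ = 8 * kap f := by ring

open Classical in
lemma perp_ge (f f' : Fin 3 → k7) (h1 : hf f f = 1) (h2 : hf f' f' = 1) (h3 : hf f f' = 0) :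
    kap f * kap f' ≤ (Finset.univ.filter fun g : LL => hf f' (act g f) = 0).card := by
  unfold kap
  rw [← Finset.card_product]
  apply Finset.card_le_card_of_injOn (fun p => p.2 * p.1)
  · intro p hp
    simp only [Finset.coe_product, Finset.coe_filter, Finset.mem_univ, true_and,
      Set.mem_prod, Set.mem_ofPred_eq] at hp ⊢
    rw [act_mul, hp.1]
    have : hf f' (act p.2 f) = hf (act p.2 f') (act p.2 f) := by rw [hp.2]
    rw [this, hf_act]
    exact hf_symm0 h3
  · intro p hp q hq hpq
    simp only [Finset.coe_product, Finset.coe_filter, Finset.mem_univ, true_and,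
      Set.mem_prod, Set.mem_ofPred_eq] at hp hq
    have e : q.2⁻¹ * p.2 = q.1 * p.1⁻¹ := by
      have : p.2 * p.1 = q.2 * q.1 := hpq
      rw [eq_mul_inv_iff_mul_eq, mul_assoc, this, inv_mul_cancel_left]
    have k : q.2⁻¹ * p.2 = 1 := by
      apply fix_pair _ f f' h1 h2 h3
      · rw [e, act_mul]
        have : act p.1⁻¹ f = f := by
          conv_lhs => rw [← hp.1]
          rw [act_inv_act]
        rw [this, hq.1]
      · rw [act_mul, hp.2]
        conv_lhs => rw [← hq.2]
        rw [act_inv_act]
    have k2 : p.2 = q.2 := by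
      rw [inv_mul_eq_one] at k; exact k.symm
    have k3 : p.1 = q.1 := by
      have : p.2 * p.1 = q.2 * q.1 := hpq
      rw [k2] at this
      exact mul_left_cancel this
    exact Prod.ext k3 k2

end Pool.Agent.TH16.PT
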