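import Mathlib

/-! Criterion for three orthogonal projections with pairwise small angles in a complex
Hilbert space: an almost fixed unit vector forces a nonzero common fixed vector. -/

set_option autoImplicit false

namespace Pool.Agent.TH16.PT

open scoped InnerProductSpace

variable {H : Type*} [NormedAddCommGroup H] [InnerProductSpace ℂ H]

/-- `P` is an orthogonal projection (as a linear map). -/
structure IsOP (P : H →ₗ[ℂ] H) : Prop where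
  idem : ∀ x, P (P x) = P x
  symm : ∀ x y, ⟪P x, y⟫_ℂ = ⟪x, P y⟫_ℂ

lemma IsOP.norm_le {P : H →ₗ[ℂ] H} (hP : IsOP P) (x : H) : ‖P x‖ ≤ ‖x‖ := by
  have h1 : ‖P x‖ ^ 2 ≤ ‖P x‖ * ‖x‖ := by
    have h2 : (‖P x‖ ^ 2 : ℝ) = RCLike.re ⟪P x, x⟫_ℂ := by
      rw [← inner_self_eq_norm_sq (𝕜 := ℂ) (P x), ← hP.symm, hP.idem]
    rw [h2]
    exact re_inner_le_norm _ _
  by_cases h0 : ‖P x‖ = 0
  · rw [h0]; exact norm_nonneg _
  · have : 0 < ‖P x‖ := lt_of_le_of_ne (norm_nonneg _) (Ne.symm h0)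
    nlinarith

/-- real inner product -/
noncomputable def ri (x y : H) : ℝ := RCLike.re ⟪x, y⟫_ℂ

lemma ri_comm (x y : H) : ri x y = ri y x := by
  unfold ri
  exact inner_re_symm x y

lemma ri_add_left (x y z : H) : ri (x + y) z = ri x z + ri y z := by
  unfold ri
  rw [inner_add_left]; exact map_add _ _ _

lemma ri_sub_left (x y z : H) : ri (x - y) z = ri x z - ri y z := by
  unfold ri
  rw [inner_sub_left]; exact map_sub _ _ _

lemma ri_add_right (x y z : H) : ri x (y + z) = ri x y + ri x z := by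
  rw [ri_comm, ri_add_left, ri_comm y, ri_comm z]

lemma ri_sub_right (x y z : H) : ri x (y - z) = ri x y - ri x z := by
  rw [ri_comm, ri_sub_left, ri_comm y, ri_comm z]

lemma ri_self (x : H) : ri x x = ‖x‖ ^ 2 := by
  unfold ri
  exact inner_self_eq_norm_sq x

lemma ri_le (x y : H) : ri x y ≤ ‖x‖ * ‖y‖ := by
  unfold ri
  exact re_inner_le_norm _ _

lemma ri_neg_left (x y : H) : ri (-x) y = - ri x y := by
  unfold ri
  rw [inner_neg_left]; exact map_neg _ _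

lemma ri_smul_left (c : ℝ) (x y : H) : ri ((c : ℂ) • x) y = c * ri x y := by
  unfold ri
  rw [inner_smul_left]
  simp

lemma ri_smul_right (c : ℝ) (x y : H) : ri x ((c : ℂ) • y) = c * ri x y := by
  rw [ri_comm, ri_smul_left, ri_comm]

lemma nsq_add (x y : H) : ‖x + y‖ ^ 2 = ‖x‖ ^ 2 + 2 * ri x y + ‖y‖ ^ 2 := by
  rw [← ri_self, ← ri_self, ← ri_self, ri_add_left, ri_add_right, ri_add_right, ri_comm y x]
  ring

lemma nsq_sub (x y : H) : ‖x - y‖ ^ 2 = ‖x‖ ^ 2 - 2 * ri x y + ‖y‖ ^ 2 := by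
  rw [← ri_self, ← ri_self, ← ri_self, ri_sub_left, ri_sub_right, ri_sub_right, ri_comm y x]
  ring

lemma IsOP.ri_symm {P : H →ₗ[ℂ] H} (hP : IsOP P) (x y : H) : ri (P x) y = ri x (P y) := by
  unfold ri
  rw [hP.symm]

/-- angle data of a pair of projections `P`, `Q` with the projection `R` onto the common part. -/
structure IsPair (P Q R : H →ₗ[ℂ] H) (ε : ℝ) : Prop where
  opR : IsOP R
  PR : ∀ x, P (R x) = R x
  QR : ∀ x, Q (R x) = R x
  ang : ∀ a b, P a = a → R a = 0 → Q b = b → ‖⟪a, b⟫_ℂ‖ ≤ ε * ‖a‖ * ‖b‖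

lemma IsPair.ri_ang {P Q R : H →ₗ[ℂ] H} {ε : ℝ} (h : IsPair P Q R ε) (a b : H)
    (ha : P a = a) (ha' : R a = 0) (hb : Q b = b) : |ri a b| ≤ ε * ‖a‖ * ‖b‖ := by
  have h1 : |ri a b| ≤ ‖⟪a, b⟫_ℂ‖ := by
    unfold ri
    exact RCLike.abs_re_le_norm _
  exact h1.trans (h.ang a b ha ha' hb)

lemma pair_ineq {P Q R : H →ₗ[ℂ] H} {ε : ℝ} (hε : 0 ≤ ε) (hε1 : ε < 1) (hP : IsOP P) (hQ : IsOP Q)
    (h : IsPair P Q R ε) (a b : H) (ha : P a = a) (hb : Q b = b) :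
    (1 - ε) * ‖a - b‖ ^ 2 ≤ ‖P (a - b)‖ ^ 2 + ‖Q (a - b)‖ ^ 2 := by
  set w := R (a - b) with hw
  set u := a - R a with hu
  set u' := -(b - R b) with hu'
  set e := u + u' with he
  have hab : a - b = w + e := by
    rw [he, hw, hu, hu', map_sub]; abel
  have hPu : P u = u := by rw [hu, map_sub, ha, h.PR]
  have hQu' : Q u' = u' := by rw [hu', map_neg, map_sub, hb, h.QR]
  have hRu : R u = 0 := by rw [hu, map_sub, h.opR.idem, sub_self]
  have hRu' : R u' = 0 := by rw [hu', map_neg, map_sub, h.opR.idem, sub_self, neg_zero]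
  have hRe : R e = 0 := by rw [he, map_add, hRu, hRu', add_zero]
  have hwe : ri w e = 0 := by
    rw [hw, h.opR.ri_symm, hRe]
    unfold ri; simp
  have hPw : P w = w := by rw [hw, h.PR]
  have hQw : Q w = w := by rw [hw, h.QR]
  have hwPe : ri w (P e) = 0 := by rw [← hP.ri_symm, hPw, hwe]
  have hwQe : ri w (Q e) = 0 := by rw [← hQ.ri_symm, hQw, hwe]
  have h1 : ‖a - b‖ ^ 2 = ‖w‖ ^ 2 + ‖e‖ ^ 2 := by rw [hab, nsq_add, hwe]; ring
  have h2 : ‖P (a - b)‖ ^ 2 = ‖w‖ ^ 2 + ‖P e‖ ^ 2 := by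
    rw [hab, map_add, hPw, nsq_add, hwPe]; ring
  have h3 : ‖Q (a - b)‖ ^ 2 = ‖w‖ ^ 2 + ‖Q e‖ ^ 2 := by
    rw [hab, map_add, hQw, nsq_add, hwQe]; ring
  -- the main estimate for e
  have h4 : ‖e‖ ^ 2 ≤ ‖P e‖ * ‖u‖ + ‖Q e‖ * ‖u'‖ := by
    have : ‖e‖ ^ 2 = ri (P e) u + ri (Q e) u' := by
      rw [hP.ri_symm, hPu, hQ.ri_symm, hQu', ← ri_add_right, ← he, ri_self]
    rw [this]
    exact add_le_add (ri_le _ _) (ri_le _ _)
  have h5 : ‖e‖ ^ 2 = ‖u‖ ^ 2 + 2 * ri u u' + ‖u'‖ ^ 2 := by rw [he, nsq_add]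
  have h6 : |ri u u'| ≤ ε * ‖u‖ * ‖u'‖ := h.ri_ang u u' hPu hRu hQu'
  have h7 : (1 - ε) * (‖u‖ ^ 2 + ‖u'‖ ^ 2) ≤ ‖e‖ ^ 2 := by
    have := (abs_le.mp h6).1
    nlinarith [mul_nonneg hε (sq_nonneg (‖u‖ - ‖u'‖))]
  have h8 : (1 - ε) * ‖e‖ ^ 2 ≤ ‖P e‖ ^ 2 + ‖Q e‖ ^ 2 := by
    set t := ‖e‖ ^ 2 with ht
    have ht0 : 0 ≤ t := by positivity
    set p := ‖P e‖
    set q := ‖Q e‖
    set x := ‖u‖
    set y := ‖u'‖
    have hp : 0 ≤ p := norm_nonneg _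
    have hq : 0 ≤ q := norm_nonneg _
    have hx : 0 ≤ x := norm_nonneg _
    have hy : 0 ≤ y := norm_nonneg _
    -- (p x + q y)^2 ≤ (p^2+q^2)(x^2+y^2)
    have h9 : t ^ 2 ≤ (p ^ 2 + q ^ 2) * (x ^ 2 + y ^ 2) := by
      have h91 : t ^ 2 ≤ (p * x + q * y) ^ 2 := by
        have : 0 ≤ p * x + q * y := by positivity
        nlinarith
      nlinarith [sq_nonneg (p * y - q * x)]
    by_cases h0 : t = 0
    · rw [h0]; nlinarith [sq_nonneg p, sq_nonneg q]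
    · have htp : 0 < t := lt_of_le_of_ne ht0 (Ne.symm h0)
      have h10 : (1 - ε) * t * t ≤ (p ^ 2 + q ^ 2) * t := by
        have hA : 0 ≤ p ^ 2 + q ^ 2 := by positivity
        have := mul_le_mul_of_nonneg_left h7 hA
        have := mul_le_mul_of_nonneg_left h9 (sub_nonneg.mpr hε1.le)
        nlinarith
      exact le_of_mul_le_mul_right h10 htp
  rw [h1, h2, h3]
  nlinarith [sq_nonneg ‖w‖, mul_nonneg hε (sq_nonneg ‖w‖)]

/-- the energy of a triple -/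
noncomputable def En (a0 a1 a2 : H) : ℝ := ‖a0 - a1‖ ^ 2 + ‖a1 - a2‖ ^ 2 + ‖a2 - a0‖ ^ 2

lemma grad_ineq {P0 P1 P2 R01 R12 R20 : H →ₗ[ℂ] H} {ε : ℝ} (hε : 0 ≤ ε) (hε1 : ε < 1)
    (h0 : IsOP P0) (h1 : IsOP P1) (h2 : IsOP P2)
    (h01 : IsPair P0 P1 R01 ε) (h12 : IsPair P1 P2 R12 ε) (h20 : IsPair P2 P0 R20 ε)
    (a0 a1 a2 : H) (ha0 : P0 a0 = a0) (ha1 : P1 a1 = a1) (ha2 : P2 a2 = a2) :
    (1 - 2 * ε) * En a0 a1 a2 ≤ ‖P0 ((a0 - a1) - (a2 - a0))‖ ^ 2 +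
      ‖P1 ((a1 - a2) - (a0 - a1))‖ ^ 2 + ‖P2 ((a2 - a0) - (a1 - a2))‖ ^ 2 := by
  set x := a0 - a1 with hx
  set y := a1 - a2 with hy
  set z := a2 - a0 with hz
  have hxyz : x + y + z = 0 := by rw [hx, hy, hz]; abel
  have k01 := pair_ineq hε hε1 h0 h1 h01 a0 a1 ha0 ha1
  have k12 := pair_ineq hε hε1 h1 h2 h12 a1 a2 ha1 ha2
  have k20 := pair_ineq hε hε1 h2 h0 h20 a2 a0 ha2 ha0
  rw [← hx] at k01
  rw [← hy] at k12
  rw [← hz] at k20
  -- parallelogram identities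
  have par : ∀ (P : H →ₗ[ℂ] H) (s t : H), ‖P (s - t)‖ ^ 2 + ‖P (s + t)‖ ^ 2 =
      2 * ‖P s‖ ^ 2 + 2 * ‖P t‖ ^ 2 := by
    intro P s t
    rw [map_sub, map_add, nsq_sub, nsq_add]; ring
  have p0 := par P0 x z
  have p1 := par P1 y x
  have p2 := par P2 z y
  have e0 : ‖P0 (x + z)‖ ^ 2 ≤ ‖y‖ ^ 2 := by
    have : x + z = -y := by
      rw [eq_neg_iff_add_eq_zero, ← hxyz]; abel
    rw [this, map_neg, norm_neg]
    exact pow_le_pow_left₀ (norm_nonneg _) (h0.norm_le y) 2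
  have e1 : ‖P1 (y + x)‖ ^ 2 ≤ ‖z‖ ^ 2 := by
    have : y + x = -z := by
      rw [eq_neg_iff_add_eq_zero, ← hxyz]; abel
    rw [this, map_neg, norm_neg]
    exact pow_le_pow_left₀ (norm_nonneg _) (h1.norm_le z) 2
  have e2 : ‖P2 (z + y)‖ ^ 2 ≤ ‖x‖ ^ 2 := by
    have : z + y = -x := by
      rw [eq_neg_iff_add_eq_zero, ← hxyz]; abel
    rw [this, map_neg, norm_neg]
    exact pow_le_pow_left₀ (norm_nonneg _) (h2.norm_le x) 2
  unfold En
  rw [← hx, ← hy, ← hz]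
  linarith

/-- the descent step -/
noncomputable def stp (P : H →ₗ[ℂ] H) (a b c : H) : H :=
  a - (((1 / 3 : ℝ) : ℂ)) • P ((a - b) - (c - a))

lemma step_energy {P0 P1 P2 : H →ₗ[ℂ] H}
    (h0 : IsOP P0) (h1 : IsOP P1) (h2 : IsOP P2) (a0 a1 a2 : H) :
    En (stp P0 a0 a1 a2) (stp P1 a1 a2 a0) (stp P2 a2 a0 a1) ≤ En a0 a1 a2 -
      (1 / 3) * (‖P0 ((a0 - a1) - (a2 - a0))‖ ^ 2 +
      ‖P1 ((a1 - a2) - (a0 - a1))‖ ^ 2 + ‖P2 ((a2 - a0) - (a1 - a2))‖ ^ 2) := by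
  set g0 := P0 ((a0 - a1) - (a2 - a0)) with hg0
  set g1 := P1 ((a1 - a2) - (a0 - a1)) with hg1
  set g2 := P2 ((a2 - a0) - (a1 - a2)) with hg2
  set x := a0 - a1 with hx
  set y := a1 - a2 with hy
  set z := a2 - a0 with hz
  have i0 : ri (x - z) g0 = ‖g0‖ ^ 2 := by
    have : ri (x - z) g0 = ri (x - z) (P0 g0) := by rw [hg0, h0.idem]
    rw [this, ← h0.ri_symm, ← hg0, ri_self]
  have i1 : ri (y - x) g1 = ‖g1‖ ^ 2 := by
    have : ri (y - x) g1 = ri (y - x) (P1 g1) := by rw [hg1, h1.idem]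
    rw [this, ← h1.ri_symm, ← hg1, ri_self]
  have i2 : ri (z - y) g2 = ‖g2‖ ^ 2 := by
    have : ri (z - y) g2 = ri (z - y) (P2 g2) := by rw [hg2, h2.idem]
    rw [this, ← h2.ri_symm, ← hg2, ri_self]
  have f : ∀ (a b g k : H), ‖(a - (((1 / 3 : ℝ) : ℂ)) • g) - (b - (((1 / 3 : ℝ) : ℂ)) • k)‖ ^ 2 =
      ‖a - b‖ ^ 2 - (2 / 3) * (ri (a - b) g - ri (a - b) k) + (1 / 9) *
        (‖g‖ ^ 2 - 2 * ri g k + ‖k‖ ^ 2) := by
    intro a b g k
    have e1 : (a - (((1 / 3 : ℝ) : ℂ)) • g) - (b - (((1 / 3 : ℝ) : ℂ)) • k) =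
        (a - b) - (((1 / 3 : ℝ) : ℂ)) • (g - k) := by
      rw [smul_sub]; abel
    rw [e1, nsq_sub (a - b), ri_smul_right, ri_sub_right, norm_smul, mul_pow, nsq_sub g k]
    have : ‖((1 / 3 : ℝ) : ℂ)‖ = 1 / 3 := by
      rw [Complex.norm_real]; norm_num
    rw [this]
    ring
  unfold En stp
  rw [← hx, ← hy, ← hz, ← hg0, ← hg1, ← hg2, f, f, f, ← hx, ← hy, ← hz]
  rw [ri_sub_left] at i0 i1 i2
  have hsum : 0 ≤ ‖g0 + g1 + g2‖ ^ 2 := by positivity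
  have hs : ‖g0 + g1 + g2‖ ^ 2 = ‖g0‖ ^ 2 + ‖g1‖ ^ 2 + ‖g2‖ ^ 2 + 2 * ri g0 g1 + 2 * ri g1 g2
      + 2 * ri g2 g0 := by
    rw [nsq_add, nsq_add, ri_add_left, ri_comm g0 g2]; ring
  rw [hs] at hsum
  linarith

lemma stp_mem {P : H →ₗ[ℂ] H} (h : IsOP P) (a b c : H) (ha : P a = a) :
    P (stp P a b c) = stp P a b c := by
  unfold stp
  rw [map_sub, map_smul, h.idem, ha]

lemma dist_stp {P : H →ₗ[ℂ] H} (h : IsOP P) (a b c : H) :
    dist a (stp P a b c) ≤ (2 / 3) * Real.sqrt (En a b c) := by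
  have h1 : dist a (stp P a b c) = (1 / 3) * ‖P ((a - b) - (c - a))‖ := by
    unfold stp
    rw [dist_eq_norm, sub_sub_cancel, norm_smul, Complex.norm_real]
    norm_num
  have h2 : ‖P ((a - b) - (c - a))‖ ≤ ‖a - b‖ + ‖c - a‖ :=
    (h.norm_le _).trans (norm_sub_le _ _)
  have h3 : ‖a - b‖ ≤ Real.sqrt (En a b c) := by
    apply Real.le_sqrt_of_sq_le
    unfold En
    nlinarith [sq_nonneg ‖b - c‖, sq_nonneg ‖c - a‖]
  have h4 : ‖c - a‖ ≤ Real.sqrt (En a b c) := by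
    apply Real.le_sqrt_of_sq_le
    unfold En
    nlinarith [sq_nonneg ‖b - c‖, sq_nonneg ‖a - b‖]
  rw [h1]
  linarith

/-- one step on triples -/
noncomputable def stp3 (P0 P1 P2 : H →ₗ[ℂ] H) (a : H × H × H) : H × H × H :=
  (stp P0 a.1 a.2.1 a.2.2, stp P1 a.2.1 a.2.2 a.1, stp P2 a.2.2 a.1 a.2.1)

theorem exists_common {P0 P1 P2 R01 R12 R20 : H →ₗ[ℂ] H} [CompleteSpace H]
    (c0 : Continuous P0) (c1 : Continuous P1) (c2 : Continuous P2)
    (h0 : IsOP P0) (h1 : IsOP P1) (h2 : IsOP P2)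
    (h01 : IsPair P0 P1 R01 (41 / 100)) (h12 : IsPair P1 P2 R12 (41 / 100))
    (h20 : IsPair P2 P0 R20 (41 / 100))
    (v : H) (hv : ‖v‖ = 1) (v0 : ‖P0 v - v‖ ≤ 1 / 100) (v1 : ‖P1 v - v‖ ≤ 1 / 100)
    (v2 : ‖P2 v - v‖ ≤ 1 / 100) :
    ∃ a : H, a ≠ 0 ∧ P0 a = a ∧ P1 a = a ∧ P2 a = a := by
  let S : ℕ → H × H × H := fun n => (stp3 P0 P1 P2)^[n] (P0 v, P1 v, P2 v)
  have hS0 : S 0 = (P0 v, P1 v, P2 v) := rfl
  have hSs : ∀ n, S (n + 1) = stp3 P0 P1 P2 (S n) := fun n => by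
    simp only [S, Function.iterate_succ', Function.comp]
  let E : ℕ → ℝ := fun n => En (S n).1 (S n).2.1 (S n).2.2
  have hmem : ∀ n, P0 (S n).1 = (S n).1 ∧ P1 (S n).2.1 = (S n).2.1 ∧ P2 (S n).2.2 = (S n).2.2 := by
    intro n
    induction n with
    | zero => rw [hS0]; exact ⟨h0.idem _, h1.idem _, h2.idem _⟩
    | succ n ih =>
      rw [hSs]
      exact ⟨stp_mem h0 _ _ _ ih.1, stp_mem h1 _ _ _ ih.2.1, stp_mem h2 _ _ _ ih.2.2⟩
  have hE : ∀ n, E (n + 1) ≤ (97 / 100) ^ 2 * E n := by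
    intro n
    have k1 := step_energy h0 h1 h2 (S n).1 (S n).2.1 (S n).2.2
    have k2 := grad_ineq (by norm_num) (by norm_num) h0 h1 h2 h01 h12 h20 (S n).1 (S n).2.1
      (S n).2.2 (hmem n).1 (hmem n).2.1 (hmem n).2.2
    have k3 : E (n + 1) = En (stp P0 (S n).1 (S n).2.1 (S n).2.2)
        (stp P1 (S n).2.1 (S n).2.2 (S n).1) (stp P2 (S n).2.2 (S n).1 (S n).2.1) := by
      simp only [E, hSs]; rfl
    have k4 : 0 ≤ E n := by simp only [E, En]; positivity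
    rw [k3]
    change _ ≤ (97 / 100) ^ 2 * E n
    have k5 : En (S n).1 (S n).2.1 (S n).2.2 = E n := rfl
    rw [k5] at k1 k2
    nlinarith
  have hE0 : ∀ n, 0 ≤ E n := fun n => by simp only [E, En]; positivity
  have hEn : ∀ n, E n ≤ ((97 / 100) ^ n) ^ 2 * E 0 := by
    intro n
    induction n with
    | zero => simp
    | succ n ih =>
      calc E (n + 1) ≤ (97 / 100) ^ 2 * E n := hE n
        _ ≤ (97 / 100) ^ 2 * (((97 / 100) ^ n) ^ 2 * E 0) := by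
            apply mul_le_mul_of_nonneg_left ih; positivity
        _ = ((97 / 100) ^ (n + 1)) ^ 2 * E 0 := by ring
  have hsq : ∀ n, Real.sqrt (E n) ≤ (97 / 100) ^ n * Real.sqrt (E 0) := by
    intro n
    calc Real.sqrt (E n) ≤ Real.sqrt (((97 / 100) ^ n) ^ 2 * E 0) := Real.sqrt_le_sqrt (hEn n)
      _ = (97 / 100) ^ n * Real.sqrt (E 0) := by
          rw [Real.sqrt_mul (by positivity), Real.sqrt_sq (by positivity)]
  -- E 0 bound
  have d01 : ‖P0 v - P1 v‖ ≤ 2 / 100 := by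
    have : P0 v - P1 v = (P0 v - v) - (P1 v - v) := by abel
    rw [this]; refine (norm_sub_le _ _).trans ?_; linarith
  have d12 : ‖P1 v - P2 v‖ ≤ 2 / 100 := by
    have : P1 v - P2 v = (P1 v - v) - (P2 v - v) := by abel
    rw [this]; refine (norm_sub_le _ _).trans ?_; linarith
  have d20 : ‖P2 v - P0 v‖ ≤ 2 / 100 := by
    have : P2 v - P0 v = (P2 v - v) - (P0 v - v) := by abel
    rw [this]; refine (norm_sub_le _ _).trans ?_; linarith
  have hEz : Real.sqrt (E 0) ≤ 35 / 1000 := by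
    apply Real.sqrt_le_iff.mpr
    refine ⟨by norm_num, ?_⟩
    simp only [E, hS0, En]
    nlinarith [norm_nonneg (P0 v - P1 v), norm_nonneg (P1 v - P2 v), norm_nonneg (P2 v - P0 v)]
  have hdist0 : ∀ n, dist (S n).1 (S (n + 1)).1 ≤ (2 / 3 * (35 / 1000)) * (97 / 100) ^ n := by
    intro n
    have k := dist_stp h0 (S n).1 (S n).2.1 (S n).2.2
    have k1 : (S (n + 1)).1 = stp P0 (S n).1 (S n).2.1 (S n).2.2 := by rw [hSs]; rfl
    rw [k1]
    refine k.trans ?_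
    have := hsq n
    simp only [E] at this hEz
    have h3 : (97 / 100 : ℝ) ^ n * Real.sqrt (En (S 0).1 (S 0).2.1 (S 0).2.2) ≤
      (97 / 100 : ℝ) ^ n * (35 / 1000) := mul_le_mul_of_nonneg_left hEz (by positivity)
    linarith
  have En_cyc : ∀ a b c : H, En b c a = En a b c := fun a b c => by unfold En; ring
  have hdist1 : ∀ n, dist (S n).2.1 (S (n + 1)).2.1 ≤ (2 / 3 * (35 / 1000)) * (97 / 100) ^ n := by
    intro n
    have k := dist_stp h1 (S n).2.1 (S n).2.2 (S n).1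
    have k1 : (S (n + 1)).2.1 = stp P1 (S n).2.1 (S n).2.2 (S n).1 := by rw [hSs]; rfl
    rw [k1]
    refine k.trans ?_
    rw [En_cyc]
    have := hsq n
    simp only [E] at this hEz
    have h3 : (97 / 100 : ℝ) ^ n * Real.sqrt (En (S 0).1 (S 0).2.1 (S 0).2.2) ≤
      (97 / 100 : ℝ) ^ n * (35 / 1000) := mul_le_mul_of_nonneg_left hEz (by positivity)
    linarith
  have hdist2 : ∀ n, dist (S n).2.2 (S (n + 1)).2.2 ≤ (2 / 3 * (35 / 1000)) * (97 / 100) ^ n := by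
    intro n
    have k := dist_stp h2 (S n).2.2 (S n).1 (S n).2.1
    have k1 : (S (n + 1)).2.2 = stp P2 (S n).2.2 (S n).1 (S n).2.1 := by rw [hSs]; rfl
    rw [k1]
    refine k.trans ?_
    rw [← En_cyc]
    have := hsq n
    simp only [E] at this hEz
    have h3 : (97 / 100 : ℝ) ^ n * Real.sqrt (En (S 0).1 (S 0).2.1 (S 0).2.2) ≤
      (97 / 100 : ℝ) ^ n * (35 / 1000) := mul_le_mul_of_nonneg_left hEz (by positivity)
    linarith
  obtain ⟨b0, hb0⟩ := cauchySeq_tendsto_of_complete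
    (cauchySeq_of_le_geometric _ _ (by norm_num) hdist0)
  obtain ⟨b1, hb1⟩ := cauchySeq_tendsto_of_complete
    (cauchySeq_of_le_geometric _ _ (by norm_num) hdist1)
  obtain ⟨b2, hb2⟩ := cauchySeq_tendsto_of_complete
    (cauchySeq_of_le_geometric _ _ (by norm_num) hdist2)
  have hElim : Filter.Tendsto E Filter.atTop (nhds (En b0 b1 b2)) := by
    simp only [E, En]
    exact (((hb0.sub hb1).norm.pow 2).add ((hb1.sub hb2).norm.pow 2)).add
      ((hb2.sub hb0).norm.pow 2)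
  have hElim0 : Filter.Tendsto E Filter.atTop (nhds 0) := by
    have k : Filter.Tendsto (fun n : ℕ => (((97 / 100 : ℝ)) ^ n) ^ 2 * E 0) Filter.atTop (nhds 0) := by
      have := (tendsto_pow_atTop_nhds_zero_of_lt_one (r := (97 / 100 : ℝ)) (by norm_num)
        (by norm_num)).pow 2 |>.mul_const (E 0)
      simpa using this
    exact squeeze_zero hE0 hEn k
  have hEb : En b0 b1 b2 = 0 := tendsto_nhds_unique hElim hElim0
  have hb01 : b0 = b1 := by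
    unfold En at hEb
    have : ‖b0 - b1‖ ^ 2 = 0 := by
      nlinarith [sq_nonneg ‖b0 - b1‖, sq_nonneg ‖b1 - b2‖, sq_nonneg ‖b2 - b0‖]
    rw [sq_eq_zero_iff, norm_eq_zero, sub_eq_zero] at this
    exact this
  have hb12 : b1 = b2 := by
    unfold En at hEb
    have : ‖b1 - b2‖ ^ 2 = 0 := by
      nlinarith [sq_nonneg ‖b0 - b1‖, sq_nonneg ‖b1 - b2‖, sq_nonneg ‖b2 - b0‖]
    rw [sq_eq_zero_iff, norm_eq_zero, sub_eq_zero] at this
    exact this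
  refine ⟨b0, ?_, ?_, ?_, ?_⟩
  · have k := dist_le_of_le_geometric_of_tendsto₀ _ _ (by norm_num) hdist0 hb0
    rw [hS0] at k
    change dist (P0 v) b0 ≤ _ at k
    intro hb
    rw [hb, dist_zero_right] at k
    have k2 : 1 ≤ ‖P0 v‖ + ‖P0 v - v‖ := by
      rw [← hv]
      have : v = P0 v - (P0 v - v) := by abel
      calc ‖v‖ = ‖P0 v - (P0 v - v)‖ := by rw [← this]
        _ ≤ _ := norm_sub_le _ _
    norm_num at k
    linarith
  · have k : Filter.Tendsto (fun n => P0 (S n).1) Filter.atTop (nhds (P0 b0)) :=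
      (c0.tendsto b0).comp hb0
    have k' : (fun n => P0 (S n).1) = fun n => (S n).1 := funext fun n => (hmem n).1
    rw [k'] at k
    exact tendsto_nhds_unique k hb0
  · have k : Filter.Tendsto (fun n => P1 (S n).2.1) Filter.atTop (nhds (P1 b1)) :=
      (c1.tendsto b1).comp hb1
    have k' : (fun n => P1 (S n).2.1) = fun n => (S n).2.1 := funext fun n => (hmem n).2.1
    rw [k'] at k
    rw [hb01]
    exact tendsto_nhds_unique k hb1
  · have k : Filter.Tendsto (fun n => P2 (S n).2.2) Filter.atTop (nhds (P2 b2)) :=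
      (c2.tendsto b2).comp hb2
    have k' : (fun n => P2 (S n).2.2) = fun n => (S n).2.2 := funext fun n => (hmem n).2.2
    rw [k'] at k
    rw [hb01, hb12]
    exact tendsto_nhds_unique k hb2

end Pool.Agent.TH16.PT
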