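import Pool.Agent.TH16.PT.Cnt

/-! The finite fields with involution used for the quotients. -/

set_option autoImplicit false

namespace Pool.Agent.TH16.PT

open Matrix

lemma gen_top {F k : Type*} [Field F] [Finite F] [Field k] (ι : k →+* F) (z : F) (Q : ℕ)
    (hcard : Nat.card F = Q ^ 2) (hz : Q < orderOf z) (B : AddSubgroup F)
    (hB : ∀ (c : k) (j : ℕ), ι c * z ^ j ∈ B) : B = ⊤ := by
  let := ι.toAlgebra
  set S := IntermediateField.adjoin k {z} with hS
  have hzS : z ∈ S := IntermediateField.mem_adjoin_simple_self k z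
  have hz0 : z ≠ 0 := by
    rintro rfl
    rw [orderOf_zero] at hz
    omega
  have hfS : Finite S := inferInstance
  have hcS : Q < Nat.card S := by
    let w : S := ⟨z, hzS⟩
    have hw : orderOf w = orderOf z := by
      have : z = (w : F) := rfl
      conv_rhs => rw [this]
      exact (orderOf_injective (S.val : S →* F) Subtype.coe_injective w).symm
    have hw0 : w ≠ 0 := fun e => hz0 (congrArg Subtype.val e)
    have h1 : orderOf w ≤ Nat.card Sˣ := by
      have := orderOf_units (y := Units.mk0 w hw0)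
      rw [Units.val_mk0] at this
      rw [this]
      exact orderOf_le_card
    have h2 : Nat.card Sˣ = Nat.card S - 1 := Nat.card_units S
    rw [hw] at h1
    omega
  have hfr : Module.finrank S F = 1 := by
    have h1 : Nat.card F = Nat.card S ^ Module.finrank S F := Module.natCard_eq_pow_finrank
    have h2 : 0 < Module.finrank S F := Module.finrank_pos
    by_contra hne
    have h3 : 2 ≤ Module.finrank S F := by omega
    have h4 : Nat.card S ^ 2 ≤ Nat.card F := by
      rw [h1]
      exact Nat.pow_le_pow_right (by omega) h3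
    rw [hcard] at h4
    have h5 := Nat.pow_lt_pow_left hcS (n := 2) (by norm_num)
    omega
  have hST : S = ⊤ := IntermediateField.finrank_eq_one_iff_eq_top.mp hfr
  have hA : Algebra.adjoin k {z} = ⊤ := by
    have h1 := IntermediateField.adjoin_simple_toSubalgebra_of_isAlgebraic
      (F := k) (α := z) (Algebra.IsAlgebraic.isAlgebraic z)
    rw [← h1, ← hS, hST]
    rfl
  rw [eq_top_iff]
  intro x _
  have hx : x ∈ Algebra.adjoin k {z} := by rw [hA]; trivial
  rw [Algebra.adjoin_singleton_eq_range_aeval] at hx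
  obtain ⟨p, rfl⟩ := hx
  change Polynomial.aeval z p ∈ B
  rw [Polynomial.aeval_eq_sum_range]
  refine sum_mem fun j _ => ?_
  rw [Algebra.smul_def]
  exact hB _ _

/-- the real subfield -/
abbrev Em (m : ℕ) := GaloisField 7 (2 * m + 1)

lemma card_Em (m : ℕ) : Nat.card (Em m) = 7 ^ (2 * m + 1) := GaloisField.card 7 _ (by omega)

lemma mod4 (m : ℕ) : 7 ^ (2 * m + 1) % 4 = 3 := by
  induction m with
  | zero => norm_num
  | succ m ih =>
    have : 7 ^ (2 * (m + 1) + 1) = 7 ^ (2 * m + 1) * 49 := by ring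
    rw [this, Nat.mul_mod, ih]

lemma mod3 (m : ℕ) : 7 ^ (2 * m + 1) % 3 = 1 := by
  induction m with
  | zero => norm_num
  | succ m ih =>
    have : 7 ^ (2 * (m + 1) + 1) = 7 ^ (2 * m + 1) * 49 := by ring
    rw [this, Nat.mul_mod, ih]

instance factE (m : ℕ) : Fact (∀ r : Em m, r ^ 2 ≠ -1 + 0 * r) := ⟨by
  intro r hr
  have hsq : IsSquare (-1 : Em m) := ⟨r, by rw [zero_mul, add_zero] at hr; rw [← hr, sq]⟩
  let : Fintype (Em m) := Fintype.ofFinite _
  rw [FiniteField.isSquare_neg_one_iff] at hsq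
  apply hsq
  rw [← Nat.card_eq_fintype_card, card_Em, mod4]⟩

/-- the field with `7 ^ (2 (2m+1))` elements, with involution -/
abbrev Fm (m : ℕ) := QuadraticAlgebra (Em m) (-1) 0

instance (m : ℕ) : Finite (Fm m) := Finite.of_equiv _ (QuadraticAlgebra.equivProd (-1 : Em m) 0).symm

lemma card_Fm (m : ℕ) : Nat.card (Fm m) = (7 ^ (2 * m + 1)) ^ 2 := by
  rw [Nat.card_congr (QuadraticAlgebra.equivProd (-1 : Em m) 0), Nat.card_prod, card_Em, sq]

/-- the embedding of the base field -/
noncomputable def io (m : ℕ) : k7 →+* Fm m where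
  toFun z := ⟨algebraMap (ZMod 7) (Em m) z.re, algebraMap (ZMod 7) (Em m) z.im⟩
  map_one' := by ext <;> simp [QuadraticAlgebra.re_one, QuadraticAlgebra.im_one]
  map_mul' := by intro a b; ext <;> simp
  map_zero' := by ext <;> simp
  map_add' := by intro a b; ext <;> simp

lemma io_star (m : ℕ) (z : k7) : io m (star z) = star (io m z) := by
  ext <;> simp [io]

lemma two_Fm (m : ℕ) : (2 : Fm m) ≠ 0 := by
  intro h
  have h1 : io m 2 = io m 0 := by rw [map_ofNat, map_zero, h]
  exact k7_two ((io m).injective h1)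

lemma exists_zeta (m : ℕ) : ∃ ζ : Fm m, ζ * star ζ = 1 ∧ 7 ^ (2 * m + 1) < orderOf (ζ ^ 3) := by
  obtain ⟨g, hg⟩ := IsCyclic.exists_generator (α := (Fm m)ˣ)
  set Q := 7 ^ (2 * m + 1) with hQ
  have hQ1 : 7 ≤ Q := by
    rw [hQ, pow_succ]
    have : 1 ≤ 7 ^ (2 * m) := Nat.one_le_pow _ _ (by norm_num)
    omega
  have hog : orderOf g = Q ^ 2 - 1 := by
    rw [orderOf_eq_card_of_forall_mem_zpowers hg, Nat.card_units, card_Fm]
  refine ⟨(g : Fm m) ^ (Q - 1), ?_, ?_⟩
  · rw [← QuadraticAlgebra.algebraMap_norm_eq_mul_star, map_pow]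
    let : Fintype (Em m) := Fintype.ofFinite _
    have hcE : Fintype.card (Em m) = Q := by rw [← Nat.card_eq_fintype_card, card_Em]
    have hn : QuadraticAlgebra.norm (g : Fm m) ≠ 0 := by
      rw [Ne, QuadraticAlgebra.norm_eq_zero_iff_eq_zero]
      exact g.ne_zero
    have := FiniteField.pow_card_sub_one_eq_one (QuadraticAlgebra.norm (g : Fm m)) hn
    rw [hcE] at this
    rw [this, map_one]
  · rw [← pow_mul, ← Units.val_pow_eq_pow_val, orderOf_units, orderOf_pow, hog]
    have h3 : Nat.Coprime (Q + 1) 3 := by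
      rw [Nat.coprime_comm, Nat.Prime.coprime_iff_not_dvd (by norm_num)]
      intro h
      have := mod3 m
      rw [← hQ] at this
      omega
    have h4 : Q ^ 2 - 1 = (Q - 1) * (Q + 1) := by
      obtain ⟨q, hq⟩ : ∃ q, Q = q + 1 := ⟨Q - 1, by omega⟩
      rw [hq, Nat.add_sub_cancel]
      have : (q + 1) ^ 2 = q * (q + 1 + 1) + 1 := by ring
      rw [this, Nat.add_sub_cancel]
    rw [h4, Nat.gcd_mul_left, h3, mul_one, Nat.mul_div_cancel_left _ (by omega)]
    omega

end Pool.Agent.TH16.PT
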