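import Pool.Agent.TH16.PT.Img2

/-! The global group and its quotients. -/

set_option autoImplicit false

namespace Pool.Agent.TH16.PT

open Matrix

noncomputable section

/-- ambient product -/
abbrev PP := ∀ m : ℕ, SU (Fm m)

/-- global homomorphisms -/
def g12 : LL →* PP := MonoidHom.pi m12
/-- global homomorphisms -/
def g01 : LL →* PP := MonoidHom.pi m01
/-- global homomorphisms -/
def g20 : LL →* PP := MonoidHom.pi m20

/-- generating set -/
def SS : Set PP := Set.range g01 ∪ Set.range g12 ∪ Set.range g20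

/-- the group -/
abbrev GG : Subgroup PP := Subgroup.closure SS

lemma g01_mem (g : LL) : g01 g ∈ GG := Subgroup.subset_closure (Or.inl (Or.inl ⟨g, rfl⟩))
lemma g12_mem (g : LL) : g12 g ∈ GG := Subgroup.subset_closure (Or.inl (Or.inr ⟨g, rfl⟩))
lemma g20_mem (g : LL) : g20 g ∈ GG := Subgroup.subset_closure (Or.inr ⟨g, rfl⟩)

/-- homomorphisms into the group -/
def l01 : LL →* GG := g01.codRestrict GG g01_mem
/-- homomorphisms into the group -/
def l12 : LL →* GG := g12.codRestrict GG g12_mem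
/-- homomorphisms into the group -/
def l20 : LL →* GG := g20.codRestrict GG g20_mem

lemma gen_GG : Subgroup.closure (Set.range l01 ∪ Set.range l12 ∪ Set.range l20) =
    (⊤ : Subgroup GG) := by
  have h : Set.range l01 ∪ Set.range l12 ∪ Set.range l20 =
      ((↑) ⁻¹' SS : Set (Subgroup.closure SS)) := by
    ext x
    constructor
    · rintro ((⟨g, rfl⟩ | ⟨g, rfl⟩) | ⟨g, rfl⟩)
      · exact Or.inl (Or.inl ⟨g, rfl⟩)
      · exact Or.inl (Or.inr ⟨g, rfl⟩)
      · exact Or.inr ⟨g, rfl⟩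
    · rintro ((⟨g, hg⟩ | ⟨g, hg⟩) | ⟨g, hg⟩)
      · exact Or.inl (Or.inl ⟨g, Subtype.ext hg⟩)
      · exact Or.inl (Or.inr ⟨g, Subtype.ext hg⟩)
      · exact Or.inr ⟨g, Subtype.ext hg⟩
  rw [h]
  exact Subgroup.closure_closure_coe_preimage

theorem GG_T (H : Type*) [NormedAddCommGroup H] [InnerProductSpace ℂ H] [CompleteSpace H]
    (ρ : GG →* unitary (H →L[ℂ] H))
    (hal : ∀ (S : Finset GG) (ε : ℝ), 0 < ε →
      ∃ v : H, ‖v‖ = 1 ∧ ∀ s ∈ S, ‖(ρ s : H →L[ℂ] H) v - v‖ < ε) :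
    ∃ v : H, v ≠ 0 ∧ ∀ g : GG, (ρ g : H →L[ℂ] H) v = v :=
  propT l01 l12 l20
    (fun g hg => Subtype.ext (funext fun m => glue1 m g hg))
    (fun g hg => Subtype.ext (funext fun m => glue2 m g hg))
    (fun g hg => Subtype.ext (funext fun m => glue0 m g hg))
    gen_GG ρ hal

lemma GG_perf : commutator GG = ⊤ := by
  have key : ∀ (l : LL →* GG) (g : LL), l g ∈ commutator GG := by
    intro l g
    have h1 : g ∈ commutator LL := by rw [perfect]; trivial
    have h2 : l g ∈ Subgroup.map l (commutator LL) := Subgroup.mem_map_of_mem l h1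
    rw [commutator_def, Subgroup.map_commutator] at h2
    exact Subgroup.commutator_mono le_top le_top h2
  rw [eq_top_iff, ← gen_GG, Subgroup.closure_le]
  rintro x ((⟨g, rfl⟩ | ⟨g, rfl⟩) | ⟨g, rfl⟩)
  · exact key _ g
  · exact key _ g
  · exact key _ g

/-- projection to a coordinate -/
def prj (m : ℕ) : GG →* SU (Fm m) := (Pi.evalMonoidHom (fun m => SU (Fm m)) m).comp GG.subtype

/-- image in a coordinate -/
abbrev HH (m : ℕ) : Subgroup (SU (Fm m)) := (prj m).range

lemma HH_perf (m : ℕ) : commutator (HH m) = ⊤ := by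
  have hs : Function.Surjective (prj m).rangeRestrict := MonoidHom.rangeRestrict_surjective _
  have hm : Subgroup.map (prj m).rangeRestrict (commutator GG) = commutator (HH m) := by
    rw [commutator_def, commutator_def, Subgroup.map_commutator,
      Subgroup.map_top_of_surjective _ hs]
  rw [← hm, GG_perf, Subgroup.map_top_of_surjective _ hs]

lemma HH12 (m : ℕ) (g : LL) : m12 m g ∈ HH m := ⟨l12 g, rfl⟩
lemma HH01 (m : ℕ) (g : LL) : m01 m g ∈ HH m := ⟨l01 g, rfl⟩

/-- the finite simple quotient -/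
abbrev Qm (m : ℕ) : Subgroup (Equiv.Perm (IsoL (Fm m))) := QQ (HH m)

/-- the quotient map -/
def qm (m : ℕ) : GG →* Qm m :=
  (((Phi (Fm m)).comp (HH m).subtype).rangeRestrict).comp (prj m).rangeRestrict

lemma qm_surj (m : ℕ) : Function.Surjective (qm m) :=
  (MonoidHom.rangeRestrict_surjective _).comp (MonoidHom.rangeRestrict_surjective _)

lemma concm (m : ℕ) : Finite (Qm m) ∧ IsSimpleGroup (Qm m) ∧ Nat.card (Fm m) ≤ Nat.card (Qm m) ∧
    ∃ (X : Type) (φ : Qm m →* Equiv.Perm X), Finite X ∧ 3 ≤ Nat.card X ∧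
      (∀ a b c d : X, a ≠ b → c ≠ d → ∃ g : Qm m, φ g a = c ∧ φ g b = d) ∧
      ∃ (x : X) (U : Subgroup (Qm m)),
        (∀ u ∈ U, φ u x = x) ∧
        (∀ u ∈ U, ∀ h : Qm m, φ h x = x → h * u * h⁻¹ ∈ U) ∧
        ∀ y z : X, y ≠ x → z ≠ x → ∃! u : Qm m, u ∈ U ∧ φ u y = z :=
  conc (HH m) (two_Fm m) (al_rel m) (stb_le m (HH m) (HH12 m) (HH01 m)) (HH_perf m)
    (m12 m nsw) (HH12 m nsw) (nsw_u m (al m)) (by rw [nsw_u, neg_neg])

lemma card_big (m : ℕ) : m < Nat.card (Fm m) := by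
  rw [card_Fm]
  have h1 : m < 2 ^ m := Nat.lt_two_pow_self
  have h2 : 2 ^ m ≤ 7 ^ (2 * m + 1) :=
    (Nat.pow_le_pow_left (by norm_num) m).trans (Nat.pow_le_pow_right (by norm_num) (by omega))
  have h3 : 7 ^ (2 * m + 1) ≤ (7 ^ (2 * m + 1)) ^ 2 := Nat.le_self_pow (by norm_num) _
  omega

end

end Pool.Agent.TH16.PT
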