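import Mathlib

/-! Three dimensional hermitian geometry over a field with involution. -/

set_option autoImplicit false

namespace Pool.Agent.TH16.PT

open Matrix

variable {K : Type*} [Field K] [StarRing K]

/-- the hermitian form -/
def hf (x y : Fin 3 → K) : K := x 0 * star (y 0) + x 1 * star (y 1) + x 2 * star (y 2)

variable (K) in
/-- the special unitary group of degree three -/
abbrev SU := specialUnitaryGroup (Fin 3) K

/-- action on vectors -/
def act (g : SU K) (x : Fin 3 → K) : Fin 3 → K := g.1 *ᵥ x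

@[simp] lemma act_one (x : Fin 3 → K) : act (1 : SU K) x = x := by
  unfold act; simp

lemma act_mul (g h : SU K) (x : Fin 3 → K) : act (g * h) x = act g (act h x) := by
  unfold act; simp

lemma act_inv_act (g : SU K) (x : Fin 3 → K) : act g⁻¹ (act g x) = x := by
  rw [← act_mul, inv_mul_cancel, act_one]

lemma act_act_inv (g : SU K) (x : Fin 3 → K) : act g (act g⁻¹ x) = x := by
  rw [← act_mul, mul_inv_cancel, act_one]

lemma act_inj (g : SU K) {x y : Fin 3 → K} (h : act g x = act g y) : x = y := by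
  rw [← act_inv_act g x, h, act_inv_act]

lemma act_add (g : SU K) (x y : Fin 3 → K) : act g (x + y) = act g x + act g y := by
  unfold act; rw [mulVec_add]

lemma act_sub (g : SU K) (x y : Fin 3 → K) : act g (x - y) = act g x - act g y := by
  unfold act; rw [mulVec_sub]

lemma act_smul (g : SU K) (c : K) (x : Fin 3 → K) : act g (c • x) = c • act g x := by
  unfold act; rw [mulVec_smul]

@[simp] lemma act_zero (g : SU K) : act g (0 : Fin 3 → K) = 0 := by
  unfold act; rw [mulVec_zero]

lemma hf_eq (x y : Fin 3 → K) : hf x y = x ⬝ᵥ star y := by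
  unfold hf
  simp [dotProduct, Fin.sum_univ_three]

lemma hf_act (g : SU K) (x y : Fin 3 → K) : hf (act g x) (act g y) = hf x y := by
  rw [hf_eq, hf_eq]
  unfold act
  rw [star_mulVec, dotProduct_comm, ← dotProduct_mulVec, mulVec_mulVec]
  have : g.1ᴴ * g.1 = 1 := g.2.1.1
  rw [this, one_mulVec, dotProduct_comm]

lemma hf_act_left (g : SU K) (x y : Fin 3 → K) : hf (act g x) y = hf x (act g⁻¹ y) := by
  rw [← hf_act g x, act_act_inv]

lemma hf_add_left (x y z : Fin 3 → K) : hf (x + y) z = hf x z + hf y z := by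
  unfold hf; simp; ring

lemma hf_sub_left (x y z : Fin 3 → K) : hf (x - y) z = hf x z - hf y z := by
  unfold hf; simp; ring

lemma hf_smul_left (c : K) (x z : Fin 3 → K) : hf (c • x) z = c * hf x z := by
  unfold hf; simp; ring

lemma hf_star (x y : Fin 3 → K) : star (hf x y) = hf y x := by
  unfold hf; simp; ring

lemma hf_add_right (x y z : Fin 3 → K) : hf x (y + z) = hf x y + hf x z := by
  unfold hf; simp; ring

lemma hf_sub_right (x y z : Fin 3 → K) : hf x (y - z) = hf x y - hf x z := by
  unfold hf; simp; ring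

lemma hf_smul_right (c : K) (x z : Fin 3 → K) : hf x (c • z) = star c * hf x z := by
  unfold hf; simp; ring

lemma hf_zero_left (x : Fin 3 → K) : hf 0 x = 0 := by unfold hf; simp

lemma hf_zero_right (x : Fin 3 → K) : hf x 0 = 0 := by unfold hf; simp

lemma hf_symm0 {x y : Fin 3 → K} (h : hf x y = 0) : hf y x = 0 := by
  rw [← hf_star, h, star_zero]

/-- standard basis vectors -/
def e0 : Fin 3 → K := ![1, 0, 0]
/-- standard basis vectors -/
def e1 : Fin 3 → K := ![0, 1, 0]
/-- standard basis vectors -/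
def e2 : Fin 3 → K := ![0, 0, 1]

/-- third column completing an orthonormal pair -/
def crs (x y : Fin 3 → K) : Fin 3 → K :=
  ![star (x 1 * y 2 - x 2 * y 1), star (x 2 * y 0 - x 0 * y 2), star (x 0 * y 1 - x 1 * y 0)]

/-- matrix with given columns -/
def colm (x y z : Fin 3 → K) : Matrix (Fin 3) (Fin 3) K :=
  !![x 0, y 0, z 0; x 1, y 1, z 1; x 2, y 2, z 2]

lemma colm_mem (x y : Fin 3 → K) (hx : hf x x = 1) (hy : hf y y = 1) (hxy : hf x y = 0) :
    colm x y (crs x y) ∈ SU K := by
  have hyx := hf_symm0 hxy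
  unfold hf at hx hy hxy hyx
  rw [mem_specialUnitaryGroup_iff, mem_unitaryGroup_iff', star_eq_conjTranspose]
  constructor
  · ext i j
    fin_cases i <;> fin_cases j <;>
      simp [colm, crs, Matrix.mul_apply, Fin.sum_univ_three, conjTranspose_apply] <;>
      first
      | linear_combination hx
      | linear_combination hy
      | linear_combination hxy
      | linear_combination hyx
      | linear_combination (0 : K) * hx
      | linear_combination (x 0 * star (x 0) + x 1 * star (x 1) + x 2 * star (x 2)) * hy + hx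
          - (x 0 * star (y 0) + x 1 * star (y 1) + x 2 * star (y 2)) * hyx
  · rw [colm, crs, Matrix.det_fin_three]
    simp
    linear_combination (x 0 * star (x 0) + x 1 * star (x 1) + x 2 * star (x 2)) * hy + hx
      - (x 0 * star (y 0) + x 1 * star (y 1) + x 2 * star (y 2)) * hyx

/-- group element with prescribed first two columns -/
def frm (x y : Fin 3 → K) (hx : hf x x = 1) (hy : hf y y = 1) (hxy : hf x y = 0) : SU K :=
  ⟨colm x y (crs x y), colm_mem x y hx hy hxy⟩

lemma frm_e0 (x y : Fin 3 → K) (hx : hf x x = 1) (hy : hf y y = 1) (hxy : hf x y = 0) :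
    act (frm x y hx hy hxy) e0 = x := by
  unfold act frm colm e0
  ext i
  fin_cases i <;> simp [mulVec, dotProduct, Fin.sum_univ_three]

lemma frm_e1 (x y : Fin 3 → K) (hx : hf x x = 1) (hy : hf y y = 1) (hxy : hf x y = 0) :
    act (frm x y hx hy hxy) e1 = y := by
  unfold act frm colm e1
  ext i
  fin_cases i <;> simp [mulVec, dotProduct, Fin.sum_univ_three]

lemma frm_inv0 (x y : Fin 3 → K) (hx : hf x x = 1) (hy : hf y y = 1) (hxy : hf x y = 0) :
    act (frm x y hx hy hxy)⁻¹ x = e0 := by
  have := act_inv_act (frm x y hx hy hxy) e0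
  rwa [frm_e0] at this

lemma frm_inv1 (x y : Fin 3 → K) (hx : hf x x = 1) (hy : hf y y = 1) (hxy : hf x y = 0) :
    act (frm x y hx hy hxy)⁻¹ y = e1 := by
  have := act_inv_act (frm x y hx hy hxy) e1
  rwa [frm_e1] at this

/-- transitivity on orthonormal pairs -/
lemma exists_pair (x y x' y' : Fin 3 → K) (hx : hf x x = 1) (hy : hf y y = 1) (hxy : hf x y = 0)
    (hx' : hf x' x' = 1) (hy' : hf y' y' = 1) (hxy' : hf x' y' = 0) :
    ∃ g : SU K, act g x = x' ∧ act g y = y' := by
  refine ⟨frm x' y' hx' hy' hxy' * (frm x y hx hy hxy)⁻¹, ?_, ?_⟩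
  · rw [act_mul, frm_inv0, frm_e0]
  · rw [act_mul, frm_inv1, frm_e1]

lemma col_eq (g : SU K) (i : Fin 3) (e : Fin 3 → K) (he : e = Pi.single i 1) (j : Fin 3) :
    g.1 j i = act g e j := by
  subst he
  unfold act
  simp

lemma fix_e01 (g : SU K) (h0 : act g e0 = e0) (h1 : act g e1 = e1) : g = 1 := by
  have c0 : ∀ j, g.1 j 0 = (e0 : Fin 3 → K) j := fun j => by
    rw [col_eq g 0 e0 (by ext i; fin_cases i <;> simp [e0]) j, h0]
  have c1 : ∀ j, g.1 j 1 = (e1 : Fin 3 → K) j := fun j => by
    rw [col_eq g 1 e1 (by ext i; fin_cases i <;> simp [e1]) j, h1]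
  have hd : g.1.det = 1 := g.2.2
  have hu : star g.1 * g.1 = 1 := g.2.1.1
  have h02 := congrFun (congrFun hu 0) 2
  have h12 := congrFun (congrFun hu 1) 2
  simp [Matrix.mul_apply, Fin.sum_univ_three, star_eq_conjTranspose, conjTranspose_apply, c0, c1,
    e0, e1] at h02 h12
  rw [Matrix.det_fin_three] at hd
  simp [c0, c1, e0, e1] at hd
  apply Subtype.ext
  ext i j
  fin_cases i <;> fin_cases j <;> simp [c0, c1, e0, e1, h02, h12, hd]

lemma fix_pair (g : SU K) (x y : Fin 3 → K) (hx : hf x x = 1) (hy : hf y y = 1)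
    (hxy : hf x y = 0) (h0 : act g x = x) (h1 : act g y = y) : g = 1 := by
  set A := frm x y hx hy hxy with hA
  have k : A⁻¹ * g * A = 1 := by
    apply fix_e01
    · rw [act_mul, act_mul, hA, frm_e0, h0, frm_inv0]
    · rw [act_mul, act_mul, hA, frm_e1, h1, frm_inv1]
  have : g = A * (A⁻¹ * g * A) * A⁻¹ := by group
  rw [this, k]; group

/-- every unit vector has a perpendicular unit vector -/
lemma exists_perp (h2 : (2 : K) ≠ 0) (hN : ∀ c : K, star c = c → ∃ a, a * star a = c)
    (x : Fin 3 → K) (hx : hf x x = 1) : ∃ y : Fin 3 → K, hf y y = 1 ∧ hf x y = 0 ∧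
      (y 0 = 0 ∨ y 1 = 0 ∨ y 2 = 0) := by
  unfold hf at *
  have key : ∀ p q : K, p * star p + q * star q ≠ 0 → ∃ t : K,
      t * star t * (p * star p + q * star q) = 1 := by
    intro p q h
    obtain ⟨t, ht⟩ := hN (p * star p + q * star q)⁻¹ (by
      rw [star_inv₀]; congr 1; simp; ring)
    exact ⟨t, by rw [ht, inv_mul_cancel₀ h]⟩
  by_cases h01 : x 0 * star (x 0) + x 1 * star (x 1) = 0
  · by_cases h12 : x 1 * star (x 1) + x 2 * star (x 2) = 0
    · have h02 : x 0 * star (x 0) + x 2 * star (x 2) ≠ 0 := by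
        intro h02
        apply h2
        linear_combination h01 + h12 + h02 - 2 * hx
      obtain ⟨t, ht⟩ := key _ _ h02
      refine ⟨![star (x 2) * t, 0, - star (x 0) * t], ?_, ?_, Or.inr (Or.inl rfl)⟩
      · simp; linear_combination ht
      · simp; ring
    · obtain ⟨t, ht⟩ := key _ _ h12
      refine ⟨![0, star (x 2) * t, - star (x 1) * t], ?_, ?_, Or.inl rfl⟩
      · simp; linear_combination ht
      · simp; ring
  · obtain ⟨t, ht⟩ := key _ _ h01
    refine ⟨![star (x 1) * t, - star (x 0) * t, 0], ?_, ?_, Or.inr (Or.inr rfl)⟩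
    · simp; linear_combination ht
    · simp; ring

end Pool.Agent.TH16.PT
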