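import Mathlib

/-! An abstract simplicity criterion for two-transitive groups with a solvable
regular normal subgroup of the point stabilizer. -/

set_option autoImplicit false

namespace Pool.Agent.TH16.PT

/-- rank one data -/
structure RankOne {Q X : Type*} [Group Q] (φ : Q →* Equiv.Perm X) (x x' c : X) (U : Subgroup Q)
    (n : Q) : Prop where
  inj : Function.Injective φ
  perf : commutator Q = ⊤
  ne : x ≠ x'
  cx : c ≠ x
  cx' : c ≠ x'
  fixx : ∀ u ∈ U, φ u x = x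
  norm : ∀ u ∈ U, ∀ h : Q, φ h x = x → h * u * h⁻¹ ∈ U
  solv : Group.IsSolvable U
  trans : ∀ y z : X, y ≠ x → z ≠ x → ∃ u ∈ U, φ u y = z
  nx : φ n x = x'
  nx' : φ n x' = x
  tor : ∀ s t : Q, φ s x = x → φ s x' = x' → φ t x = x → φ t x' = x' → s * t = t * s

variable {Q X : Type*} [Group Q] {φ : Q →* Equiv.Perm X} {x x' c : X} {U : Subgroup Q} {n : Q}

lemma pmul (φ : Q →* Equiv.Perm X) (a b : Q) (y : X) : φ (a * b) y = φ a (φ b y) := by
  rw [map_mul]; rfl

lemma pinv (φ : Q →* Equiv.Perm X) (a : Q) (y : X) : φ a⁻¹ (φ a y) = y := by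
  rw [← pmul, inv_mul_cancel, map_one]; rfl

lemma pinv' (φ : Q →* Equiv.Perm X) (a : Q) (y : X) : φ a (φ a⁻¹ y) = y := by
  rw [← pmul, mul_inv_cancel, map_one]; rfl

lemma pinj (φ : Q →* Equiv.Perm X) (a : Q) {y z : X} (h : φ a y = φ a z) : y = z :=
  (φ a).injective h

lemma RankOne.tr (h : RankOne φ x x' c U n) (a : X) : ∃ g : Q, φ g a = x := by
  by_cases ha : a = x
  · exact ⟨1, by rw [ha, map_one]; rfl⟩
  · obtain ⟨u, -, hu⟩ := h.trans a x' ha (Ne.symm h.ne)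
    exact ⟨n * u, by rw [pmul, hu, h.nx']⟩

lemma RankOne.tr2 (h : RankOne φ x x' c U n) (a b c d : X) (hab : a ≠ b) (hcd : c ≠ d) :
    ∃ g : Q, φ g a = c ∧ φ g b = d := by
  obtain ⟨g, hg⟩ := h.tr a
  obtain ⟨k, hk⟩ := h.tr c
  obtain ⟨u, hu, hu2⟩ := h.trans (φ g b) (φ k d)
    (fun e => hab (pinj φ g (by rw [hg, e]))) (fun e => hcd (pinj φ k (by rw [hk, e])))
  refine ⟨k⁻¹ * u * g, ?_, ?_⟩
  · rw [pmul, pmul, hg, h.fixx u hu, ← hk, pinv]
  · rw [pmul, pmul, hu2, pinv]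

lemma RankOne.gen (h : RankOne φ x x' c U n) : Subgroup.normalClosure (U : Set Q) = ⊤ := by
  set N := Subgroup.normalClosure (U : Set Q) with hN
  have hUN : ∀ u ∈ U, u ∈ N := fun u hu => Subgroup.subset_normalClosure hu
  -- transitivity of the opposite group
  have htr' : ∀ y z : X, y ≠ x' → z ≠ x' → ∃ u ∈ N, φ u y = z := by
    intro y z hy hz
    obtain ⟨u, hu, hu2⟩ := h.trans (φ n y) (φ n z)
      (fun e => hy (pinj φ n (by rw [e, h.nx']))) (fun e => hz (pinj φ n (by rw [e, h.nx'])))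
    refine ⟨n⁻¹ * u * n⁻¹⁻¹, Subgroup.normalClosure_normal.conj_mem u (hUN u hu) _, ?_⟩
    rw [inv_inv, pmul, pmul, hu2, pinv]
  have hstep : ∀ q : Q, ∃ q0 ∈ N, φ (q0 * q) x = x ∧ φ (q0 * q) x' = x' := by
    intro q
    have h1 : ∃ q1 ∈ N, φ (q1 * q) x = x := by
      by_cases hq : φ q x = x'
      · obtain ⟨u, hu, hu2⟩ := h.trans x' c (Ne.symm h.ne) h.cx
        obtain ⟨w, hw, hw2⟩ := htr' c x h.cx' h.ne
        exact ⟨w * u, mul_mem hw (hUN u hu), by rw [pmul, pmul, hq, hu2, hw2]⟩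
      · obtain ⟨w, hw, hw2⟩ := htr' (φ q x) x hq h.ne
        exact ⟨w, hw, by rw [pmul, hw2]⟩
    obtain ⟨q1, hq1, h2⟩ := h1
    obtain ⟨u, hu, hu2⟩ := h.trans (φ (q1 * q) x') x'
      (fun e => h.ne (pinj φ (q1 * q) (by rw [h2, e]))) (Ne.symm h.ne)
    refine ⟨u * q1, mul_mem (hUN u hu) hq1, ?_, ?_⟩
    · rw [mul_assoc, pmul, h2, h.fixx u hu]
    · rw [mul_assoc, pmul, hu2]
  have hcomm : commutator Q ≤ N := by
    rw [commutator_def, Subgroup.commutator_le]
    intro a _ b _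
    obtain ⟨a0, ha0, ha1, ha2⟩ := hstep a
    obtain ⟨b0, hb0, hb1, hb2⟩ := hstep b
    have hc := h.tor _ _ ha1 ha2 hb1 hb2
    rw [← QuotientGroup.eq_one_iff]
    have ea : ((a0 : Q) : Q ⧸ N) = 1 := (QuotientGroup.eq_one_iff a0).mpr ha0
    have eb : ((b0 : Q) : Q ⧸ N) = 1 := (QuotientGroup.eq_one_iff b0).mpr hb0
    have ec : ((a : Q) : Q ⧸ N) * (b : Q ⧸ N) = (b : Q ⧸ N) * (a : Q ⧸ N) := by
      have := congrArg (fun q : Q => (q : Q ⧸ N)) hc
      simp only [QuotientGroup.mk_mul, ea, eb, one_mul] at this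
      exact this
    rw [commutatorElement_def]
    simp only [QuotientGroup.mk_mul, QuotientGroup.mk_inv]
    rw [ec]; group
  rw [h.perf] at hcomm
  exact top_le_iff.mp hcomm

theorem RankOne.simple (h : RankOne φ x x' c U n) : IsSimpleGroup Q := by
  have hnt : Nontrivial Q := by
    refine ⟨n, 1, fun e => h.ne ?_⟩
    have := h.nx
    rw [e, map_one] at this
    exact this
  refine { exists_pair_ne := hnt.exists_pair_ne, eq_bot_or_eq_top_of_normal := ?_ }
  intro N hN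
  by_cases hb : N = ⊥
  · exact Or.inl hb
  right
  obtain ⟨m, hmN, hm1⟩ := (Subgroup.ne_bot_iff_exists_ne_one.mp hb) |>.elim
    (fun a ha => (⟨a.1, a.2, fun e => ha (Subtype.ext e)⟩ : ∃ m, m ∈ N ∧ m ≠ 1))
  have hp : ∃ p, φ m p ≠ p := by
    by_contra hcon
    push Not at hcon
    apply hm1
    apply h.inj
    rw [map_one]
    ext p; exact hcon p
  obtain ⟨p, hp⟩ := hp
  have hNtr : ∀ a b : X, ∃ k ∈ N, φ k a = b := by
    intro a b
    by_cases hab : a = b
    · exact ⟨1, one_mem _, by rw [map_one, hab]; rfl⟩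
    · obtain ⟨g, hg1, hg2⟩ := h.tr2 p (φ m p) a b (Ne.symm hp) hab
      refine ⟨g * m * g⁻¹, hN.conj_mem m hmN g, ?_⟩
      rw [pmul, pmul, ← hg1, pinv, hg2]
  -- everything is N U
  have hle : Subgroup.normalClosure (U : Set Q) ≤ N ⊔ U := by
    rw [Subgroup.normalClosure, Subgroup.closure_le]
    intro y hy
    rw [Group.mem_conjugatesOfSet_iff] at hy
    obtain ⟨u, hu, hy⟩ := hy
    rw [isConj_iff] at hy
    obtain ⟨g, rfl⟩ := hy
    obtain ⟨k, hk, hk2⟩ := hNtr x (φ g x)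
    have hs : φ (k⁻¹ * g) x = x := by rw [pmul, ← hk2, pinv]
    have hu' := h.norm u hu _ hs
    set w := k⁻¹ * g * u * (k⁻¹ * g)⁻¹ with hw
    have e : g * u * g⁻¹ = k * (w * k⁻¹ * w⁻¹) * w := by
      rw [hw]; group
    rw [e]
    have h1 : k * (w * k⁻¹ * w⁻¹) ∈ N := mul_mem hk (hN.conj_mem _ (inv_mem hk) w)
    exact mul_mem (Subgroup.mem_sup_left h1) (Subgroup.mem_sup_right hu')
  rw [h.gen, top_le_iff] at hle
  -- quotient solvable and perfect
  have hsurj : Function.Surjective ((QuotientGroup.mk' N).comp U.subtype) := by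
    intro q
    obtain ⟨g, rfl⟩ := QuotientGroup.mk'_surjective N q
    have hg : g ∈ N ⊔ U := by rw [hle]; trivial
    rw [Subgroup.mem_sup_of_normal_left] at hg
    obtain ⟨a, ha, b, hb, rfl⟩ := hg
    refine ⟨⟨b, hb⟩, ?_⟩
    change ((b : Q) : Q ⧸ N) = ((a * b : Q) : Q ⧸ N)
    rw [QuotientGroup.mk_mul, (QuotientGroup.eq_one_iff a).mpr ha, one_mul]
  have := h.solv
  have hsol : Group.IsSolvable (Q ⧸ N) := Group.isSolvable_of_surjective hsurj
  by_contra hNt
  have hnt2 : Nontrivial (Q ⧸ N) := by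
    rw [← not_subsingleton_iff_nontrivial]
    intro hs
    exact hNt (QuotientGroup.subgroup_eq_top_of_subsingleton N hs)
  have hlt := Group.IsSolvable.commutator_lt_top_of_nontrivial (Q ⧸ N)
  apply hlt.ne
  have hm : Subgroup.map (QuotientGroup.mk' N) (commutator Q) = commutator (Q ⧸ N) := by
    rw [commutator_def, commutator_def, Subgroup.map_commutator,
      Subgroup.map_top_of_surjective _ (QuotientGroup.mk'_surjective N)]
  rw [← hm, h.perf, Subgroup.map_top_of_surjective _ (QuotientGroup.mk'_surjective N)]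

end Pool.Agent.TH16.PT
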