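import Pool.Agent.TH16.PT.Uni
import Pool.Agent.TH16.PT.Simp

/-! The action on isotropic lines. -/

set_option autoImplicit false

namespace Pool.Agent.TH16.PT

open Matrix

variable {K : Type*} [Field K] [StarRing K]

/-- linear map of a group element -/
def actL (g : SU K) : (Fin 3 → K) →ₗ[K] (Fin 3 → K) := Matrix.mulVecLin g.1

lemma actL_apply (g : SU K) (x : Fin 3 → K) : actL g x = act g x := rfl

lemma actL_mul (g h : SU K) : actL (g * h) = (actL g).comp (actL h) := by
  ext1 x; exact LinearMap.ext fun y => by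
    simp only [LinearMap.comp_apply, actL_apply, act_mul]

lemma actL_one : actL (1 : SU K) = LinearMap.id := by
  exact LinearMap.ext fun y => by
    simp only [LinearMap.id_apply, actL_apply, act_one]

variable (K) in
/-- isotropic lines -/
def IsoL := {W : Submodule K (Fin 3 → K) //
  ∃ x : Fin 3 → K, x ≠ 0 ∧ hf x x = 0 ∧ W = Submodule.span K {x}}

lemma act_ne (g : SU K) {x : Fin 3 → K} (hx : x ≠ 0) : act g x ≠ 0 := by
  intro h
  apply hx
  rw [← act_inv_act g x, h, act_zero]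

instance : MulAction (SU K) (IsoL K) where
  smul g W := ⟨W.1.map (actL g), by
    obtain ⟨x, hx, hxx, hW⟩ := W.2
    refine ⟨act g x, act_ne g hx, by rw [hf_act, hxx], ?_⟩
    rw [hW, Submodule.map_span, Set.image_singleton, actL_apply]⟩
  one_smul W := by
    apply Subtype.ext
    change W.1.map (actL 1) = W.1
    rw [actL_one, Submodule.map_id]
  mul_smul g h W := by
    apply Subtype.ext
    change W.1.map (actL (g * h)) = (W.1.map (actL h)).map (actL g)
    rw [actL_mul, Submodule.map_comp]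

/-- point of an isotropic vector -/
def ptl (x : Fin 3 → K) (h0 : x ≠ 0) (h : hf x x = 0) : IsoL K :=
  ⟨Submodule.span K {x}, x, h0, h, rfl⟩

lemma exists_ptl (W : IsoL K) : ∃ (x : Fin 3 → K) (h0 : x ≠ 0) (h : hf x x = 0),
    W = ptl x h0 h := by
  obtain ⟨W, x, h0, h, rfl⟩ := W
  exact ⟨x, h0, h, rfl⟩

variable (K) in
/-- the permutation representation -/
def Phi : SU K →* Equiv.Perm (IsoL K) := MulAction.toPermHom (SU K) (IsoL K)

lemma Phi_ptl (g : SU K) (x : Fin 3 → K) (h0 : x ≠ 0) (h : hf x x = 0) :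
    Phi K g (ptl x h0 h) = ptl (act g x) (act_ne g h0) (by rw [hf_act, h]) := by
  apply Subtype.ext
  change (Submodule.span K {x}).map (actL g) = Submodule.span K {act g x}
  rw [Submodule.map_span, Set.image_singleton, actL_apply]

lemma ptl_eq {x y : Fin 3 → K} {h0 : x ≠ 0} {h : hf x x = 0} {h0' : y ≠ 0} {h' : hf y y = 0}
    (e : ptl x h0 h = ptl y h0' h') : ∃ c : K, x = c • y := by
  have e1 : Submodule.span K {x} = Submodule.span K {y} := congrArg Subtype.val e
  have : x ∈ Submodule.span K {y} := by rw [← e1]; exact Submodule.mem_span_singleton_self x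
  rw [Submodule.mem_span_singleton] at this
  obtain ⟨c, hc⟩ := this
  exact ⟨c, hc.symm⟩

lemma ptl_congr {x y : Fin 3 → K} {h0 : x ≠ 0} {h : hf x x = 0} {h0' : y ≠ 0} {h' : hf y y = 0}
    (c : K) (e : x = c • y) : ptl x h0 h = ptl y h0' h' := by
  apply Subtype.ext
  change Submodule.span K {x} = Submodule.span K {y}
  have hc : c ≠ 0 := by
    rintro rfl
    rw [zero_smul] at e
    exact h0 e
  rw [e]
  exact Submodule.span_singleton_smul_eq (IsUnit.mk0 c hc) y

omit [StarRing K] in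
lemma uv_ne (α : K) : uv α ≠ 0 := by
  intro h
  have := congrFun h 0
  simp [uv] at this

section main

variable {α : K}

/-- the base point -/
def p0 (hα : α * star α = -1) : IsoL K := ptl (uv α) (uv_ne α) (hf_uv α hα)

/-- the opposite point -/
def p1 (hα : α * star α = -1) : IsoL K := ptl (uv (-α)) (uv_ne _) (hf_uv _ (neg_al hα))

/-- a third point -/
def p2 (hα : α * star α = -1) : IsoL K := ptl ![1, 0, α]
  (by intro h; have := congrFun h 0; simp at this) (by
    unfold hf; simp; linear_combination hα)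

lemma p01 (h2 : (2 : K) ≠ 0) (hα : α * star α = -1) : p0 hα ≠ p1 hα := by
  intro h
  obtain ⟨c, hc⟩ := ptl_eq h
  have h0 := congrFun hc 0
  have h1 := congrFun hc 1
  simp [uv] at h0 h1
  rw [← h0] at h1
  apply al_ne hα
  have : 2 * α = 0 := by linear_combination h1
  exact (mul_eq_zero.mp this).resolve_left h2

lemma p20 (hα : α * star α = -1) : p2 hα ≠ p0 hα := by
  intro h
  obtain ⟨c, hc⟩ := ptl_eq h
  have h0 := congrFun hc 0
  have h1 := congrFun hc 1
  simp [uv] at h0 h1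
  rw [← h0] at h1
  apply al_ne hα
  simpa using h1

lemma p21 (hα : α * star α = -1) : p2 hα ≠ p1 hα := by
  intro h
  obtain ⟨c, hc⟩ := ptl_eq h
  have h0 := congrFun hc 0
  have h1 := congrFun hc 1
  simp [uv] at h0 h1
  rw [← h0] at h1
  apply al_ne hα
  simpa using h1

/-- every point different from the base point is reached from the opposite point -/
lemma reach (h2 : (2 : K) ≠ 0) (hα : α * star α = -1) (y : IsoL K) (hy : y ≠ p0 hα) :
    ∃ M : SU K, act M (uv α) = uv α ∧ Phi K M (p1 hα) = y := by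
  obtain ⟨v, hv0, hv, rfl⟩ := exists_ptl y
  have hne : hf v (uv α) ≠ 0 := by
    intro h
    obtain ⟨c, hc⟩ := iso_par hα v hv h
    exact hy (ptl_congr c hc)
  set w := (2 / hf v (uv α)) • v with hw
  have hww : hf w w = 0 := by rw [hw, hf_smul_left, hf_smul_right, hv]; ring
  have hwu : hf w (uv α) = 2 := by rw [hw, hf_smul_left, div_mul_cancel₀ _ hne]
  obtain ⟨a, t, h, hat⟩ := trans_u h2 hα w hww hwu
  refine ⟨sg α a t hα h, sg_u α a t hα h, ?_⟩
  unfold p1
  rw [Phi_ptl]
  exact ptl_congr _ (hat.trans hw)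

lemma scal (h2 : (2 : K) ≠ 0) (hα : α * star α = -1) (M : SU K) (h : act M (uv α) = uv α)
    (h' : Phi K M (p1 hα) = p1 hα) : M = 1 := by
  unfold p1 at h'
  rw [Phi_ptl] at h'
  obtain ⟨c, hc⟩ := ptl_eq h'
  have k : hf (act M (uv (-α))) (uv α) = 2 := by
    conv_lhs => rw [← h]
    rw [hf_act, hf_uv' α hα]
  rw [hc, hf_smul_left, hf_uv' α hα] at k
  have hc1 : c = 1 := by
    have : (c - 1) * 2 = 0 := by linear_combination k
    rcases mul_eq_zero.mp this with h | h
    · exact sub_eq_zero.mp h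
    · exact absurd h h2
  apply fix2 h2 hα M h
  rw [hc, hc1, one_smul]

lemma reg (h2 : (2 : K) ≠ 0) (hα : α * star α = -1) (M N : SU K) (hM : act M (uv α) = uv α)
    (hN : act N (uv α) = uv α) (y : IsoL K) (hy : y ≠ p0 hα) (e : Phi K M y = Phi K N y) :
    M = N := by
  obtain ⟨A, hA, rfl⟩ := reach h2 hα y hy
  have inv_fix : ∀ B : SU K, act B (uv α) = uv α → act B⁻¹ (uv α) = uv α := by
    intro B hB
    have := act_inv_act B (uv α)
    rwa [hB] at this
  have k : (A⁻¹ * N⁻¹ * M * A) = 1 := by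
    apply scal h2 hα
    · rw [act_mul, act_mul, act_mul, hA, hM, inv_fix N hN, inv_fix A hA]
    · rw [pmul, pmul, pmul, e, pinv, pinv]
  have : N⁻¹ * M = 1 := by
    have h3 : N⁻¹ * M = A * (A⁻¹ * N⁻¹ * M * A) * A⁻¹ := by group
    rw [h3, k]; group
  rw [inv_mul_eq_one] at this
  exact this.symm

lemma line_fix (hα : α * star α = -1) (M : SU K) (h : Phi K M (p0 hα) = p0 hα) :
    ∃ c : K, c ≠ 0 ∧ act M (uv α) = c • uv α := by
  unfold p0 at h
  rw [Phi_ptl] at h
  obtain ⟨c, hc⟩ := ptl_eq h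
  refine ⟨c, ?_, hc⟩
  rintro rfl
  rw [zero_smul] at hc
  exact act_ne M (uv_ne α) hc

lemma line_fix' (hα : α * star α = -1) (M : SU K) (h : Phi K M (p1 hα) = p1 hα) :
    ∃ c : K, c ≠ 0 ∧ act M (uv (-α)) = c • uv (-α) := by
  unfold p1 at h
  rw [Phi_ptl] at h
  obtain ⟨c, hc⟩ := ptl_eq h
  refine ⟨c, ?_, hc⟩
  rintro rfl
  rw [zero_smul] at hc
  exact act_ne M (uv_ne _) hc

lemma act_inv_smul (M : SU K) (x : Fin 3 → K) (c : K) (hc : c ≠ 0) (h : act M x = c • x) :
    act M⁻¹ x = c⁻¹ • x := by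
  have := act_inv_act M x
  rw [h, act_smul] at this
  rw [← this, smul_smul, inv_mul_cancel₀ hc, one_smul]
  rw [this]

variable (Hs : Subgroup (SU K))

/-- the finite quotient -/
abbrev QQ : Subgroup (Equiv.Perm (IsoL K)) := ((Phi K).comp Hs.subtype).range

/-- the root group -/
def UU (α : K) : Subgroup (QQ Hs) := (Subgroup.map (Phi K) (stb (uv α))).comap (QQ Hs).subtype

lemma mem_UU (u : QQ Hs) : u ∈ UU Hs α ↔ ∃ M : SU K, act M (uv α) = uv α ∧
    Phi K M = (u : Equiv.Perm (IsoL K)) := Iff.rfl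

theorem rankOne (h2 : (2 : K) ≠ 0) (hα : α * star α = -1)
    (hst : ∀ M : SU K, act M (uv α) = uv α → M ∈ Hs) (hperf : commutator Hs = ⊤)
    (n : SU K) (hn : n ∈ Hs) (hn1 : act n (uv α) = uv (-α)) (hn2 : act n (uv (-α)) = uv α) :
    RankOne (QQ Hs).subtype (p0 hα) (p1 hα) (p2 hα) (UU Hs α) ⟨Phi K n, ⟨⟨n, hn⟩, rfl⟩⟩ := by
  refine
    { inj := Subtype.coe_injective
      perf := ?_
      ne := p01 h2 hα
      cx := p20 hα
      cx' := p21 hα
      fixx := ?_
      norm := ?_
      solv := ?_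
      trans := ?_
      nx := ?_
      nx' := ?_
      tor := ?_ }
  · set f := ((Phi K).comp Hs.subtype).rangeRestrict with hf
    have hs : Function.Surjective f := MonoidHom.rangeRestrict_surjective _
    have hm : Subgroup.map f (commutator Hs) = commutator (QQ Hs) := by
      rw [commutator_def, commutator_def, Subgroup.map_commutator,
        Subgroup.map_top_of_surjective _ hs]
    rw [← hm, hperf, Subgroup.map_top_of_surjective _ hs]
  · rintro u ⟨M, hM, hMu⟩
    change (u : Equiv.Perm (IsoL K)) (p0 hα) = p0 hα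
    have hMu' : Phi K M = (u : Equiv.Perm (IsoL K)) := hMu
    rw [← hMu']
    unfold p0
    rw [Phi_ptl]
    exact ptl_congr 1 (by rw [one_smul]; exact hM)
  · rintro u ⟨M, hM, hMu⟩ ⟨h, ⟨k, rfl⟩⟩ hh
    obtain ⟨c, hc0, hc⟩ := line_fix hα k.1 hh
    refine ⟨k.1 * M * k.1⁻¹, ?_, ?_⟩
    · change act (k.1 * M * k.1⁻¹) (uv α) = uv α
      have hM' : act M (uv α) = uv α := hM
      rw [act_mul, act_mul, act_inv_smul k.1 _ c hc0 hc, act_smul, hM', act_smul, hc, smul_smul,
        inv_mul_cancel₀ hc0, one_smul]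
    · have hMu' : Phi K M = (u : Equiv.Perm (IsoL K)) := hMu
      rw [map_mul, map_mul, hMu', map_inv]
      rfl
  · have := solv h2 hα
    have h1 : Group.IsSolvable (Subgroup.map (Phi K) (stb (uv α))) :=
      Group.isSolvable_of_surjective ((Phi K).subgroupMap_surjective (stb (uv α)))
    let j : UU Hs α →* Subgroup.map (Phi K) (stb (uv α)) :=
      { toFun := fun u => ⟨u.1.1, u.2⟩
        map_one' := rfl
        map_mul' := fun _ _ => rfl }
    refine Group.isSolvable_of_isSolvable_injective (f := j) ?_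
    intro a b hab
    have hab' := congrArg Subtype.val hab
    apply Subtype.ext
    apply Subtype.ext
    exact hab'
  · intro y z hy hz
    obtain ⟨A, hA, hA'⟩ := reach h2 hα y hy
    obtain ⟨B, hB, hB'⟩ := reach h2 hα z hz
    have hAi : act A⁻¹ (uv α) = uv α := by
      have := act_inv_act A (uv α)
      rwa [hA] at this
    have hf : act (B * A⁻¹) (uv α) = uv α := by rw [act_mul, hAi, hB]
    refine ⟨⟨Phi K (B * A⁻¹), ⟨⟨B * A⁻¹, hst _ hf⟩, rfl⟩⟩, ⟨B * A⁻¹, hf, rfl⟩, ?_⟩
    change Phi K (B * A⁻¹) y = z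
    rw [pmul, ← hA', pinv, hB']
  · change Phi K n (p0 hα) = p1 hα
    unfold p0 p1
    rw [Phi_ptl]
    exact ptl_congr 1 (by rw [one_smul]; exact hn1)
  · change Phi K n (p1 hα) = p0 hα
    unfold p0 p1
    rw [Phi_ptl]
    exact ptl_congr 1 (by rw [one_smul]; exact hn2)
  · rintro ⟨s, ⟨k, rfl⟩⟩ ⟨t, ⟨l, rfl⟩⟩ hs hs' ht ht'
    obtain ⟨c, hc0, hc⟩ := line_fix hα k.1 hs
    obtain ⟨c', hc0', hc'⟩ := line_fix' hα k.1 hs'
    obtain ⟨d, hd0, hd⟩ := line_fix hα l.1 ht
    obtain ⟨d', hd0', hd'⟩ := line_fix' hα l.1 ht'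
    have key : (l.1 * k.1)⁻¹ * (k.1 * l.1) = 1 := by
      apply fix2 h2 hα
      · rw [act_mul]
        have e : act (k.1 * l.1) (uv α) = act (l.1 * k.1) (uv α) := by
          rw [act_mul, act_mul, hc, hd, act_smul, act_smul, hc, hd, smul_smul, smul_smul,
            mul_comm]
        rw [e, act_inv_act]
      · rw [act_mul]
        have e : act (k.1 * l.1) (uv (-α)) = act (l.1 * k.1) (uv (-α)) := by
          rw [act_mul, act_mul, hc', hd', act_smul, act_smul, hc', hd', smul_smul, smul_smul,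
            mul_comm]
        rw [e, act_inv_act]
    rw [inv_mul_eq_one] at key
    apply Subtype.ext
    change Phi K k.1 * Phi K l.1 = Phi K l.1 * Phi K k.1
    rw [← map_mul, ← map_mul, key]

end main

section fin

variable {F : Type} [Field F] [StarRing F] [Finite F] {α : F} (Hs : Subgroup (SU F))

instance : Finite (IsoL F) := by
  have : Finite (Submodule F (Fin 3 → F)) := inferInstance
  unfold IsoL
  infer_instance

theorem conc (h2 : (2 : F) ≠ 0) (hα : α * star α = -1)
    (hst : ∀ M : SU F, act M (uv α) = uv α → M ∈ Hs) (hperf : commutator Hs = ⊤)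
    (n : SU F) (hn : n ∈ Hs) (hn1 : act n (uv α) = uv (-α)) (hn2 : act n (uv (-α)) = uv α) :
    Finite (QQ Hs) ∧ IsSimpleGroup (QQ Hs) ∧ Nat.card F ≤ Nat.card (QQ Hs) ∧
    ∃ (X : Type) (φ : QQ Hs →* Equiv.Perm X), Finite X ∧ 3 ≤ Nat.card X ∧
      (∀ a b c d : X, a ≠ b → c ≠ d → ∃ g : QQ Hs, φ g a = c ∧ φ g b = d) ∧
      ∃ (x : X) (U : Subgroup (QQ Hs)),
        (∀ u ∈ U, φ u x = x) ∧
        (∀ u ∈ U, ∀ h : QQ Hs, φ h x = x → h * u * h⁻¹ ∈ U) ∧
        ∀ y z : X, y ≠ x → z ≠ x → ∃! u : QQ Hs, u ∈ U ∧ φ u y = z := by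
  have R := rankOne Hs h2 hα hst hperf n hn hn1 hn2
  have hfin : Finite (Equiv.Perm (IsoL F)) := inferInstance
  have hfQ : Finite (QQ Hs) := inferInstance
  refine ⟨hfQ, R.simple, ?_, IsoL F, (QQ Hs).subtype, inferInstance, ?_,
    fun a b c d => R.tr2 a b c d, p0 hα, UU Hs α, R.fixx, R.norm, ?_⟩
  · -- cardinality
    have hs2 : star (2 : F) = 2 := by simp
    have hrel : ∀ a : F, (-(a * star a) / 2) + star (-(a * star a) / 2) + a * star a = 0 := by
      intro a
      rw [star_div₀, star_neg, hs2, star_mul', star_star]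
      field_simp
      ring
    let j : F → QQ Hs := fun a => ⟨Phi F (sg α a _ hα (hrel a)),
      ⟨⟨sg α a _ hα (hrel a), hst _ (sg_u _ _ _ _ _)⟩, rfl⟩⟩
    apply Nat.card_le_card_of_injective j
    intro a b hab
    have e : Phi F (sg α a _ hα (hrel a)) = Phi F (sg α b _ hα (hrel b)) :=
      congrArg Subtype.val hab
    have e2 := reg h2 hα _ _ (sg_u α a _ hα (hrel a)) (sg_u α b _ hα (hrel b)) (p1 hα)
      (p01 h2 hα).symm (by rw [e])
    have e3 := congrArg (fun g : SU F => g.1 2 0) e2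
    simpa [sg, sgm] using e3
  · have h3 : ({p0 hα, p1 hα, p2 hα} : Set (IsoL F)).ncard = 3 := by
      rw [Set.ncard_eq_three]
      exact ⟨_, _, _, p01 h2 hα, (p20 hα).symm, (p21 hα).symm, rfl⟩
    rw [← h3, ← Set.ncard_univ]
    exact Set.ncard_le_ncard (Set.subset_univ _) (Set.toFinite _)
  · intro y z hy hz
    obtain ⟨u, hu, hu2⟩ := R.trans y z hy hz
    refine ⟨u, ⟨hu, hu2⟩, ?_⟩
    rintro w ⟨⟨N, hN, hNw⟩, hw2⟩
    obtain ⟨M, hM, hMu⟩ := hu
    have hNw' : Phi F N = (w : Equiv.Perm (IsoL F)) := hNw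
    have hMu' : Phi F M = (u : Equiv.Perm (IsoL F)) := hMu
    apply Subtype.ext
    rw [← hNw', ← hMu']
    congr 1
    apply reg h2 hα N M hN hM y hy
    rw [hNw', hMu']
    exact hw2.trans hu2.symm

end fin

end Pool.Agent.TH16.PT
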