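import Pool.Agent.TH16.PT.PropT

/-! Perfectness of the finite group. -/

set_option autoImplicit false

namespace Pool.Agent.TH16.PT

open Matrix

variable {K : Type*} [Field K] [StarRing K]

lemma ext01 (g h : SU K) (h0 : act g e0 = act h e0) (h1 : act g e1 = act h e1) : g = h := by
  have : h⁻¹ * g = 1 := by
    apply fix_e01
    · rw [act_mul, h0, act_inv_act]
    · rw [act_mul, h1, act_inv_act]
  rw [inv_mul_eq_one] at this
  exact this.symm

/-- diagonal matrices -/
def dg (d : Fin 3 → K) (h : ∀ i, d i * star (d i) = 1) (hd : d 0 * d 1 * d 2 = 1) : SU K :=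
  ⟨Matrix.diagonal d, by
    rw [mem_specialUnitaryGroup_iff, mem_unitaryGroup_iff]
    constructor
    · rw [star_eq_conjTranspose, diagonal_conjTranspose, diagonal_mul_diagonal]
      have : (fun i => d i * star d i) = fun _ => (1 : K) := funext fun i => h i
      rw [this, diagonal_one]
    · rw [det_diagonal, Fin.prod_univ_three, hd]⟩

lemma act_dg (d : Fin 3 → K) (h : ∀ i, d i * star (d i) = 1) (hd : d 0 * d 1 * d 2 = 1)
    (x : Fin 3 → K) : act (dg d h hd) x = fun i => d i * x i := by
  unfold act dg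
  ext i
  simp [mulVec_diagonal]

lemma s2_e1 (a b : K) (h : a * star a + b * star b = 1) :
    act (s2 a b h) e1 = ![-star b, star a, 0] := frm_e1 _ _ _ _ _

omit [StarRing K] in
lemma vec01 (c d : K) : (![c, d, 0] : Fin 3 → K) = c • e0 + d • e1 := by
  apply ext3 <;> simp [e0, e1]

lemma s2_mul_rel {a b c d : K} (h : a * star a + b * star b = 1)
    (h' : c * star c + d * star d = 1) :
    (a * c - star b * d) * star (a * c - star b * d) +
      (b * c + star a * d) * star (b * c + star a * d) = 1 := by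
  simp only [star_sub, star_add, star_mul', star_star]
  linear_combination (c * star c + d * star d) * h + h'

lemma s2_mul (a b c d : K) (h : a * star a + b * star b = 1)
    (h' : c * star c + d * star d = 1) :
    s2 a b h * s2 c d h' = s2 (a * c - star b * d) (b * c + star a * d) (s2_mul_rel h h') := by
  apply ext01
  · rw [act_mul, s2_e0, vec01, act_add, act_smul, act_smul, s2_e0, s2_e0, s2_e1]
    apply ext3 <;> simp <;> ring
  · rw [act_mul, s2_e1, vec01, act_add, act_smul, act_smul, s2_e0, s2_e1, s2_e1]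
    apply ext3 <;> simp <;> ring

lemma s2_congr {a b c d : K} (h : a * star a + b * star b = 1)
    (h' : c * star c + d * star d = 1) (hac : a = c) (hbd : b = d) : s2 a b h = s2 c d h' := by
  subst hac hbd; rfl

lemma s2_one (h : (1 : K) * star 1 + 0 * star 0 = 1) : s2 (1 : K) 0 h = 1 := by
  apply ext01
  · rw [s2_e0, act_one]; rfl
  · rw [s2_e1, act_one]; unfold e1; simp

lemma s2_inv (a b : K) (h : a * star a + b * star b = 1)
    (h' : star a * star (star a) + (-b) * star (-b) = 1) : (s2 a b h)⁻¹ = s2 (star a) (-b) h' := by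
  rw [inv_eq_iff_mul_eq_one, s2_mul]
  rw [← s2_one (by simp)]
  apply s2_congr
  · linear_combination h
  · ring

lemma tdg_h (μ : K) (hμ : μ * star μ = 1) :
    ∀ i, (![1, μ, star μ] : Fin 3 → K) i * star ((![1, μ, star μ] : Fin 3 → K) i) = 1 := by
  intro i
  fin_cases i
  · simp
  · simpa using hμ
  · simp; linear_combination hμ

/-- torus element -/
def tdg (μ : K) (hμ : μ * star μ = 1) : SU K :=
  dg ![1, μ, star μ] (tdg_h μ hμ) (by simp [hμ])

lemma tdg_conj_rel {a b μ : K} (hμ : μ * star μ = 1) (h : a * star a + b * star b = 1) :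
    a * star a + (b * μ) * star (b * μ) = 1 := by
  rw [star_mul']
  linear_combination h + (b * star b) * hμ

lemma tdg_conj (a b μ : K) (hμ : μ * star μ = 1) (h : a * star a + b * star b = 1) :
    tdg μ hμ * s2 a b h * (tdg μ hμ)⁻¹ = s2 a (b * μ) (tdg_conj_rel hμ h) := by
  rw [mul_inv_eq_iff_eq_mul]
  apply ext01
  · have e : act (tdg μ hμ) e0 = e0 := by
      unfold tdg
      rw [act_dg]
      apply ext3 <;> simp [e0]
    rw [act_mul, act_mul, e, s2_e0, s2_e0]
    unfold tdg
    rw [act_dg]
    apply ext3 <;> simp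
    ring
  · have e : act (tdg μ hμ) e1 = μ • e1 := by
      unfold tdg
      rw [act_dg]
      apply ext3 <;> simp [e1]
    rw [act_mul, act_mul, e, act_smul, s2_e1, s2_e1]
    unfold tdg
    rw [act_dg]
    apply ext3 <;> simp
    linear_combination -(star b) * hμ

section perf

/-- the derived subgroup -/
abbrev CC : Subgroup LL := commutator LL

lemma comm_mem (a b μ : k7) (hμ : μ * star μ = 1) (h : a * star a + b * star b = 1)
    (h' : (a * star a + star μ * (b * star b)) * star (a * star a + star μ * (b * star b)) +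
      (star a * b * (μ - 1)) * star (star a * b * (μ - 1)) = 1) :
    s2 (a * star a + star μ * (b * star b)) (star a * b * (μ - 1)) h' ∈ CC := by
  have hi : star a * star (star a) + (-b) * star (-b) = 1 := by
    rw [star_star, star_neg]; linear_combination h
  have e : s2 (a * star a + star μ * (b * star b)) (star a * b * (μ - 1)) h' =
      tdg μ hμ * s2 a b h * (tdg μ hμ)⁻¹ * (s2 a b h)⁻¹ := by
    rw [tdg_conj a b μ hμ h, s2_inv a b h hi, s2_mul]
    apply s2_congr
    · rw [star_mul']; ring
    · ring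
  rw [e]
  exact Subgroup.commutator_mem_commutator (Subgroup.mem_top _) (Subgroup.mem_top _)

lemma tor_mem (l : k7) (hl : l * star l = 1) (h : l * star l + 0 * star 0 = 1) :
    s2 l 0 h ∈ CC := by
  have hl' : star l * star (star l) = 1 := by rw [star_star]; linear_combination hl
  have h0 : (0 : k7) * star 0 + 1 * star 1 = 1 := by simp
  have h1 : ((0 : k7) * star 0 + star (star l) * (1 * star 1)) *
      star (0 * star 0 + star (star l) * (1 * star 1)) +
      (star 0 * 1 * (star l - 1)) * star (star 0 * 1 * (star l - 1)) = 1 := by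
    simp; exact hl
  have := comm_mem 0 1 (star l) hl' h0 h1
  have e : s2 l 0 h = s2 ((0 : k7) * star 0 + star (star l) * (1 * star 1))
      (star 0 * 1 * (star l - 1)) h1 := by
    apply s2_congr
    · simp
    · simp
  rw [e]; exact this

lemma phase_mem (c d l m : k7) (hl : l * star l = 1) (hm : m * star m = 1)
    (h : c * star c + d * star d = 1) (hm0 : s2 c d h ∈ CC)
    (h' : (l * c) * star (l * c) + (m * d) * star (m * d) = 1) : s2 (l * c) (m * d) h' ∈ CC := by
  have h1 : l * star l + 0 * star 0 = 1 := by simp [hl]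
  have k1 := mul_mem (tor_mem l hl h1) hm0
  rw [s2_mul] at k1
  have hlm : (l * m) * star (l * m) = 1 := by rw [star_mul']; linear_combination (m * star m) * hl + hm
  have k2 : tdg (l * m) hlm * _ * (tdg (l * m) hlm)⁻¹ ∈ CC :=
    (inferInstance : (commutator LL).Normal).conj_mem _ k1 (tdg (l * m) hlm)
  rw [tdg_conj] at k2
  convert k2 using 2
  · simp
  · simp
    linear_combination -(d * m) * hl

lemma key_dec : ∀ n : ZMod 7, ∃ s : ZMod 7, ∃ μ : k7, μ * star μ = 1 ∧
    ((⟨1 - s, 0⟩ : k7) + star μ * ⟨s, 0⟩) * star ((⟨1 - s, 0⟩ : k7) + star μ * ⟨s, 0⟩) =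
      ⟨n, 0⟩ := by decide +kernel

lemma k7_self (c : k7) : c * star c = ⟨(c * star c).re, 0⟩ := by
  ext
  · rfl
  · simp; ring

lemma norm_phase {x y : k7} (h : x * star x = y * star y) : ∃ l : k7, l * star l = 1 ∧ x = l * y := by
  by_cases hy : y = 0
  · subst hy
    rw [zero_mul] at h
    have hx : x = 0 := by
      rcases mul_eq_zero.mp h with h | h
      · exact h
      · exact star_eq_zero.mp h
    exact ⟨1, by simp, by rw [hx]; simp⟩
  · have hys : star y ≠ 0 := fun e => hy (star_eq_zero.mp e)
    refine ⟨x / y, ?_, by rw [div_mul_cancel₀ _ hy]⟩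
    rw [star_div₀, div_mul_div_comm, h, div_self (mul_ne_zero hy hys)]

lemma s2_mem (c d : k7) (h : c * star c + d * star d = 1) : s2 c d h ∈ CC := by
  obtain ⟨s, μ, hμ, hs⟩ := key_dec (c * star c).re
  obtain ⟨a, ha⟩ := k7_norm_surj (1 - s)
  obtain ⟨b, hb⟩ := k7_norm_surj s
  have hab : a * star a + b * star b = 1 := by
    rw [ha, hb]
    ext <;> simp [QuadraticAlgebra.re_one, QuadraticAlgebra.im_one]
  have hc' : (a * star a + star μ * (b * star b)) * star (a * star a + star μ * (b * star b)) =
      c * star c := by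
    rw [ha, hb, hs, ← k7_self]
  have h' : (a * star a + star μ * (b * star b)) * star (a * star a + star μ * (b * star b)) +
      (star a * b * (μ - 1)) * star (star a * b * (μ - 1)) = 1 := by
    simp only [star_add, star_sub, star_mul', star_star, star_one]
    linear_combination (a * star a + b * star b + 1) * hab +
      ((b * star b) * (b * star b) + a * star a * (b * star b)) * hμ
  have hd' : (star a * b * (μ - 1)) * star (star a * b * (μ - 1)) = d * star d := by
    linear_combination h' - hc' - h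
  have k := comm_mem a b μ hμ hab h'
  obtain ⟨l, hl, hl'⟩ := norm_phase hc'.symm
  obtain ⟨m, hm, hm'⟩ := norm_phase hd'.symm
  have k2 := phase_mem _ _ l m hl hm h' k (by rw [← hl', ← hm']; exact h)
  have e : s2 c d h = s2 (l * (a * star a + star μ * (b * star b)))
      (m * (star a * b * (μ - 1))) (by rw [← hl', ← hm']; exact h) := by
    apply s2_congr
    · exact hl'
    · exact hm'
  rw [e]; exact k2

lemma stb_e2_mem (g : LL) (hg : act g e2 = e2) : g ∈ CC := by
  set x := act g e0 with hx
  have hx2 : x 2 = 0 := by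
    have : hf x e2 = 0 := by
      conv_lhs => rw [← hg]
      rw [hx, hf_act]; unfold hf e0 e2; simp
    unfold hf e2 at this
    simpa using this
  have hxx : hf x x = 1 := by rw [hx, hf_act]; unfold hf e0; simp
  have hn : x 0 * star (x 0) + x 1 * star (x 1) = 1 := by
    unfold hf at hxx
    rw [hx2] at hxx
    simpa using hxx
  have e : g = s2 (x 0) (x 1) hn := by
    have : (s2 (x 0) (x 1) hn)⁻¹ * g = 1 := by
      apply fix_pair _ e0 e2 (by unfold hf e0; simp) (by unfold hf e2; simp)
        (by unfold hf e0 e2; simp)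
      · rw [act_mul]
        have : act g e0 = act (s2 (x 0) (x 1) hn) e0 := by
          rw [s2_e0]
          exact ext3 rfl rfl hx2
        rw [this, act_inv_act]
      · rw [act_mul, hg]
        have := act_inv_act (s2 (x 0) (x 1) hn) e2
        rwa [s2_e2] at this
    rw [inv_mul_eq_one] at this
    exact this.symm
  rw [e]
  exact s2_mem _ _ _

lemma stb_mem (f f' : Fin 3 → k7) (h1 : hf f f = 1) (h2 : hf f' f' = 1) (h3 : hf f f' = 0)
    (g : LL) (hg : act g f = f) : g ∈ CC := by
  obtain ⟨γ, hγ, -⟩ := exists_pair (e2 : Fin 3 → k7) e1 f f' (by unfold hf e2; simp)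
    (by unfold hf e1; simp) (by unfold hf e2 e1; simp) h1 h2 h3
  have k : γ⁻¹ * g * γ ∈ CC := by
    apply stb_e2_mem
    rw [act_mul, act_mul, hγ, hg, ← hγ, act_inv_act]
  have e : g = γ * (γ⁻¹ * g * γ) * γ⁻¹ := by group
  rw [e]
  exact (inferInstance : (commutator LL).Normal).conj_mem _ k γ

/-- moving a unit vector to another one with a common perpendicular vector -/
lemma move (x z y : Fin 3 → k7) (hx : hf x x = 1) (hz : hf z z = 1) (hy : hf y y = 1)
    (hxy : hf x y = 0) (hzy : hf z y = 0) : ∃ s ∈ CC, act s z = x := by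
  obtain ⟨s, hs1, hs2⟩ := exists_pair y z y x hy hz (hf_symm0 hzy) hy hx (hf_symm0 hxy)
  exact ⟨s, stb_mem y z hy hz (hf_symm0 hzy) s hs1, hs2⟩

theorem perfect : commutator LL = ⊤ := by
  rw [eq_top_iff]
  intro g _
  set x := act g e0 with hx
  have u0 : hf (e0 : Fin 3 → k7) e0 = 1 := by unfold hf e0; simp
  have u1 : hf (e1 : Fin 3 → k7) e1 = 1 := by unfold hf e1; simp
  have u2 : hf (e2 : Fin 3 → k7) e2 = 1 := by unfold hf e2; simp
  have u12 : hf (e1 : Fin 3 → k7) e2 = 0 := by unfold hf e1 e2; simp
  have u20 : hf (e2 : Fin 3 → k7) e0 = 0 := by unfold hf e2 e0; simp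
  have u01 : hf (e0 : Fin 3 → k7) e1 = 0 := by unfold hf e0 e1; simp
  have hxx : hf x x = 1 := by rw [hx, hf_act, u0]
  obtain ⟨y, hy, hxy, hy3⟩ := exists_perp k7_two k7_norm x hxx
  have key : ∃ s ∈ CC, act s e0 = x := by
    rcases hy3 with h | h | h
    · exact move x e0 y hxx u0 hy hxy (by
        unfold hf e0; simp [h])
    · obtain ⟨s, hs, hs2⟩ := move x e1 y hxx u1 hy hxy (by unfold hf e1; simp [h])
      obtain ⟨t, ht, ht2⟩ := move e1 e0 e2 u1 u0 u2 u12 (hf_symm0 u20)
      exact ⟨s * t, mul_mem hs ht, by rw [act_mul, ht2, hs2]⟩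
    · obtain ⟨s, hs, hs2⟩ := move x e2 y hxx u2 hy hxy (by unfold hf e2; simp [h])
      obtain ⟨t, ht, ht2⟩ := move e2 e0 e1 u2 u0 u1 (hf_symm0 u12) u01
      exact ⟨s * t, mul_mem hs ht, by rw [act_mul, ht2, hs2]⟩
  obtain ⟨s, hs, hs2⟩ := key
  have k : s⁻¹ * g ∈ CC := by
    apply stb_mem e0 e1 u0 u1 u01
    rw [act_mul, ← hx, ← hs2, act_inv_act]
  have e : g = s * (s⁻¹ * g) := by group
  rw [e]
  exact mul_mem hs k

end perf

end Pool.Agent.TH16.PT
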