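import Pool.Agent.TH16.PT.Fld
import Pool.Agent.TH16.PT.Perf
import Pool.Agent.TH16.PT.Lines

/-! The glued homomorphisms and the image in each unitary group. -/

set_option autoImplicit false

namespace Pool.Agent.TH16.PT

open Matrix

section gen

variable {K F : Type*} [Field K] [StarRing K] [Field F] [StarRing F]

/-- change of field -/
def suMap (ι : K →+* F) (hι : ∀ x, ι (star x) = star (ι x)) : SU K →* SU F where
  toFun g := ⟨g.1.map ι, by
    rw [mem_specialUnitaryGroup_iff, mem_unitaryGroup_iff, star_eq_conjTranspose]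
    constructor
    · have h1 : (g.1.map ι)ᴴ = (g.1ᴴ).map ι := by
        ext i j
        simp [conjTranspose_apply, hι]
      have h2 : g.1 * g.1ᴴ = 1 := g.2.1.2
      rw [h1, ← Matrix.map_mul, h2, Matrix.map_one _ (map_zero ι) (map_one ι)]
    · have h3 : g.1.det = 1 := g.2.2
      have := RingHom.map_det ι g.1
      rw [h3, map_one] at this
      exact this.symm⟩
  map_one' := Subtype.ext (Matrix.map_one _ (map_zero ι) (map_one ι))
  map_mul' g h := Subtype.ext (by
    change (g.1 * h.1).map ι = g.1.map ι * h.1.map ι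
    rw [Matrix.map_mul])

lemma suMap_apply (ι : K →+* F) (hι : ∀ x, ι (star x) = star (ι x)) (g : SU K) (i j : Fin 3) :
    (suMap ι hι g).1 i j = ι (g.1 i j) := rfl

/-- conjugation by a diagonal unitary matrix -/
def cj (D : Fin 3 → F) (hD : ∀ i, D i * star (D i) = 1) : SU F →* SU F where
  toFun g := ⟨diagonal D * g.1 * diagonal (star D), by
    have hDD : diagonal D * diagonal (star D) = 1 := by
      rw [diagonal_mul_diagonal]
      have : (fun i => D i * (star D) i) = fun _ => (1 : F) := funext fun i => hD i
      rw [this, diagonal_one]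
    have hDD' : diagonal (star D) * diagonal D = 1 := by
      rw [diagonal_mul_diagonal]
      have : (fun i => (star D) i * D i) = fun _ => (1 : F) := funext fun i => by
        rw [mul_comm]; exact hD i
      rw [this, diagonal_one]
    rw [mem_specialUnitaryGroup_iff, mem_unitaryGroup_iff, star_eq_conjTranspose]
    constructor
    · have h2 : g.1 * g.1ᴴ = 1 := g.2.1.2
      rw [conjTranspose_mul, conjTranspose_mul, diagonal_conjTranspose, diagonal_conjTranspose,
        star_star]
      calc diagonal D * g.1 * diagonal (star D) * (diagonal D * (g.1ᴴ * diagonal (star D)))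
          = diagonal D * g.1 * (diagonal (star D) * diagonal D) * g.1ᴴ * diagonal (star D) := by
            simp only [Matrix.mul_assoc]
        _ = diagonal D * (g.1 * g.1ᴴ) * diagonal (star D) := by
            rw [hDD']; simp only [Matrix.mul_assoc, Matrix.one_mul]
        _ = 1 := by rw [h2, Matrix.mul_one, hDD]
    · have h3 : g.1.det = 1 := g.2.2
      rw [det_mul, det_mul, h3, mul_one, ← det_mul, hDD, det_one]⟩
  map_one' := Subtype.ext (by
    change diagonal D * 1 * diagonal (star D) = 1
    rw [Matrix.mul_one, diagonal_mul_diagonal]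
    have : (fun i => D i * (star D) i) = fun _ => (1 : F) := funext fun i => hD i
    rw [this, diagonal_one])
  map_mul' g h := Subtype.ext (by
    have hDD' : diagonal (star D) * diagonal D = 1 := by
      rw [diagonal_mul_diagonal]
      have : (fun i => (star D) i * D i) = fun _ => (1 : F) := funext fun i => by
        rw [mul_comm]; exact hD i
      rw [this, diagonal_one]
    change diagonal D * (g.1 * h.1) * diagonal (star D) =
      (diagonal D * g.1 * diagonal (star D)) * (diagonal D * h.1 * diagonal (star D))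
    calc diagonal D * (g.1 * h.1) * diagonal (star D)
        = diagonal D * g.1 * 1 * h.1 * diagonal (star D) := by
          simp only [Matrix.mul_assoc, Matrix.one_mul]
      _ = _ := by rw [← hDD']; simp only [Matrix.mul_assoc])

lemma cj_apply (D : Fin 3 → F) (hD : ∀ i, D i * star (D i) = 1) (g : SU F) (i j : Fin 3) :
    (cj D hD g).1 i j = D i * g.1 i j * star (D j) := by
  change (diagonal D * g.1 * diagonal (star D)) i j = _
  rw [mul_diagonal, diagonal_mul]
  rfl

lemma colE (g : SU K) (i : Fin 3) (h : act g (Pi.single i 1) = Pi.single i 1) (j : Fin 3) :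
    g.1 j i = (Pi.single i 1 : Fin 3 → K) j := by
  rw [col_eq g i _ rfl j, h]

lemma rowE (g : SU K) (i : Fin 3) (h : act g (Pi.single i 1) = Pi.single i 1) (j : Fin 3) :
    g.1 i j = (Pi.single i 1 : Fin 3 → K) j := by
  have h' : act g⁻¹ (Pi.single i 1) = (Pi.single i 1 : Fin 3 → K) := by
    have := act_inv_act g (Pi.single i 1)
    rwa [h] at this
  have k := colE g⁻¹ i h' j
  have k2 : (g⁻¹).1 j i = star (g.1 i j) := rfl
  rw [k2] at k
  have k3 := congrArg star k
  rw [star_star] at k3
  rw [k3]
  by_cases hij : j = i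
  · subst hij; simp
  · simp [hij]

end gen

lemma e0_single {K : Type*} [Field K] : (e0 : Fin 3 → K) = Pi.single 0 1 := by
  ext i; fin_cases i <;> simp [e0]
lemma e1_single {K : Type*} [Field K] : (e1 : Fin 3 → K) = Pi.single 1 1 := by
  ext i; fin_cases i <;> simp [e1]
lemma e2_single {K : Type*} [Field K] : (e2 : Fin 3 → K) = Pi.single 2 1 := by
  ext i; fin_cases i <;> simp [e2]

/-- chosen element of norm one -/
noncomputable def zt (m : ℕ) : Fm m := (exists_zeta m).choose

lemma zt_norm (m : ℕ) : zt m * star (zt m) = 1 := (exists_zeta m).choose_spec.1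

lemma zt_order (m : ℕ) : 7 ^ (2 * m + 1) < orderOf (zt m ^ 3) := (exists_zeta m).choose_spec.2

lemma D1_norm (m : ℕ) : ∀ i, (![zt m, zt m, 1] : Fin 3 → Fm m) i *
    star ((![zt m, zt m, 1] : Fin 3 → Fm m) i) = 1 := by
  intro i
  fin_cases i
  · exact zt_norm m
  · exact zt_norm m
  · simp

lemma D2_norm (m : ℕ) : ∀ i, (![zt m, 1, 1] : Fin 3 → Fm m) i *
    star ((![zt m, 1, 1] : Fin 3 → Fm m) i) = 1 := by
  intro i
  fin_cases i
  · exact zt_norm m
  · simp
  · simp

/-- the three local homomorphisms -/
noncomputable def m12 (m : ℕ) : LL →* SU (Fm m) := suMap (io m) (io_star m)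
/-- the three local homomorphisms -/
noncomputable def m01 (m : ℕ) : LL →* SU (Fm m) := (cj _ (D1_norm m)).comp (m12 m)
/-- the three local homomorphisms -/
noncomputable def m20 (m : ℕ) : LL →* SU (Fm m) := (cj _ (D2_norm m)).comp (m12 m)

lemma m12_apply (m : ℕ) (g : LL) (i j : Fin 3) : (m12 m g).1 i j = io m (g.1 i j) := rfl

lemma m01_apply (m : ℕ) (g : LL) (i j : Fin 3) : (m01 m g).1 i j =
    (![zt m, zt m, 1] : Fin 3 → Fm m) i * io m (g.1 i j) *
      star ((![zt m, zt m, 1] : Fin 3 → Fm m) j) := by
  change (cj _ (D1_norm m) (m12 m g)).1 i j = _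
  rw [cj_apply, m12_apply]

lemma m20_apply (m : ℕ) (g : LL) (i j : Fin 3) : (m20 m g).1 i j =
    (![zt m, 1, 1] : Fin 3 → Fm m) i * io m (g.1 i j) *
      star ((![zt m, 1, 1] : Fin 3 → Fm m) j) := by
  change (cj _ (D2_norm m) (m12 m g)).1 i j = _
  rw [cj_apply, m12_apply]

lemma mul_star_mid (z y : k7) : z * y * star z = (z * star z) * y := by ring

lemma glue1 (m : ℕ) (g : LL) (h : act g e2 = e2) : m12 m g = m01 m g := by
  rw [e2_single] at h
  have hc := colE g 2 h
  have hr := rowE g 2 h
  have hz := zt_norm m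
  apply Subtype.ext
  ext1 i j
  rw [m12_apply, m01_apply]
  fin_cases i <;> fin_cases j <;> simp [hc, hr]
  all_goals first
    | linear_combination -(io m (g.1 0 0)) * hz
    | linear_combination -(io m (g.1 0 1)) * hz
    | linear_combination -(io m (g.1 1 0)) * hz
    | linear_combination -(io m (g.1 1 1)) * hz

lemma glue2 (m : ℕ) (g : LL) (h : act g e0 = e0) : m20 m g = m12 m g := by
  rw [e0_single] at h
  have hc := colE g 0 h
  have hr := rowE g 0 h
  have hz := zt_norm m
  apply Subtype.ext
  ext1 i j
  rw [m12_apply, m20_apply]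
  fin_cases i <;> fin_cases j <;> simp [hc, hr]
  exact hz

lemma glue0 (m : ℕ) (g : LL) (h : act g e1 = e1) : m01 m g = m20 m g := by
  rw [e1_single] at h
  have hc := colE g 1 h
  have hr := rowE g 1 h
  have hz := zt_norm m
  apply Subtype.ext
  ext1 i j
  rw [m01_apply, m20_apply]
  fin_cases i <;> fin_cases j <;> simp [hc, hr]
  exact hz

end Pool.Agent.TH16.PT
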