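import Pool.Agent.TH16.PT.Img

/-! The image contains the full stabilizer of an isotropic vector. -/

set_option autoImplicit false

namespace Pool.Agent.TH16.PT

open Matrix

/-- base parameter -/
def a0 : k7 := ⟨3, 2⟩

lemma a0_rel : a0 * star a0 = -1 := by decide +kernel

/-- its image -/
noncomputable def al (m : ℕ) : Fm m := io m a0

lemma al_rel (m : ℕ) : al m * star (al m) = -1 := by
  unfold al
  rw [← io_star, ← map_mul, a0_rel, map_neg, map_one]

/-- monomial element -/
def n13 : LL := frm e2 e1 (by unfold hf e2; simp) (by unfold hf e1; simp)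
  (by unfold hf e2 e1; simp)

lemma n13_val : n13.1 = !![0, 0, -1; 0, 1, 0; 1, 0, 0] := by
  change colm e2 e1 (crs e2 e1) = _
  unfold colm crs e2 e1
  simp

/-- monomial element -/
def n12 : LL := frm e1 (-e0) (by unfold hf e1; simp) (by unfold hf e0; simp)
  (by unfold hf e1 e0; simp)

lemma n12_val : n12.1 = !![0, -1, 0; 1, 0, 0; 0, 0, 1] := by
  change colm e1 (-e0) (crs e1 (-e0)) = _
  unfold colm crs e1 e0
  simp

lemma szt_norm (m : ℕ) : star (zt m) * zt m = 1 := by rw [mul_comm]; exact zt_norm m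

/-- diagonal element -/
noncomputable def w1 (m : ℕ) : SU (Fm m) := dg ![star (zt m), 1, zt m]
  (by
    intro i
    fin_cases i
    · simpa using szt_norm m
    · simp
    · exact zt_norm m) (by simpa using szt_norm m)

/-- diagonal element -/
noncomputable def w2 (m : ℕ) : SU (Fm m) := dg ![1, star (zt m), zt m]
  (by
    intro i
    fin_cases i
    · simp
    · simpa using szt_norm m
    · exact zt_norm m) (by simpa using szt_norm m)

lemma dg_val {K : Type*} [Field K] [StarRing K] (d : Fin 3 → K) (h : ∀ i, d i * star (d i) = 1)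
    (hd : d 0 * d 1 * d 2 = 1) (i j : Fin 3) : (dg d h hd).1 i j = if i = j then d i else 0 := by
  change Matrix.diagonal d i j = _
  rw [diagonal_apply]

lemma w1_rel (m : ℕ) : m01 m n13 = m12 m n13 * w1 m := by
  apply Subtype.ext
  ext1 i j
  change _ = ((m12 m n13).1 * (w1 m).1) i j
  rw [m01_apply, Matrix.mul_apply, Fin.sum_univ_three]
  simp only [m12_apply, w1, dg_val, n13_val]
  fin_cases i <;> fin_cases j <;> simp
  exact zt_norm m

lemma w2_rel (m : ℕ) : m12 m n12 * w1 m = w2 m * m12 m n12 := by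
  apply Subtype.ext
  ext1 i j
  change ((m12 m n12).1 * (w1 m).1) i j = ((w2 m).1 * (m12 m n12).1) i j
  rw [Matrix.mul_apply, Fin.sum_univ_three, Matrix.mul_apply, Fin.sum_univ_three]
  simp only [m12_apply, w1, w2, dg_val, n12_val]
  fin_cases i <;> fin_cases j <;> simp

lemma io_al_rel (m : ℕ) {a t : k7} (h : t + star t + a * star a = 0) :
    io m t + star (io m t) + io m a * star (io m a) = 0 := by
  rw [← io_star, ← io_star, ← map_mul, ← map_add, ← map_add, h, map_zero]

lemma m12_sg (m : ℕ) (a t : k7) (h : t + star t + a * star a = 0) :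
    m12 m (sg a0 a t a0_rel h) = sg (al m) (io m a) (io m t) (al_rel m) (io_al_rel m h) := by
  apply Subtype.ext
  ext1 i j
  rw [m12_apply]
  change io m (sgm a0 a t i j) = sgm (al m) (io m a) (io m t) i j
  unfold sgm al
  fin_cases i <;> fin_cases j <;> simp [io_star]

lemma th_rel (m : ℕ) (a t : Fm m) (h : t + star t + a * star a = 0) :
    t + star t + (zt m ^ 3 * a) * star (zt m ^ 3 * a) = 0 := by
  have hz := zt_norm m
  simp only [star_mul', star_pow]
  have h3 : zt m ^ 3 * star (zt m) ^ 3 = 1 := by rw [← mul_pow, hz, one_pow]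
  linear_combination h + (a * star a) * h3

lemma th_conj (m : ℕ) (a t : Fm m) (h : t + star t + a * star a = 0) :
    (w1 m * w2 m) * sg (al m) a t (al_rel m) h =
      sg (al m) (zt m ^ 3 * a) t (al_rel m) (th_rel m a t h) * (w1 m * w2 m) := by
  have hz := zt_norm m
  apply Subtype.ext
  ext1 i j
  change (((w1 m).1 * (w2 m).1) * sgm (al m) a t) i j =
    (sgm (al m) (zt m ^ 3 * a) t * ((w1 m).1 * (w2 m).1)) i j
  have hw : (w1 m).1 * (w2 m).1 =
      Matrix.diagonal (![star (zt m), star (zt m), zt m ^ 2] : Fin 3 → Fm m) := by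
    ext1 i j
    rw [Matrix.mul_apply, Fin.sum_univ_three, diagonal_apply]
    simp only [w1, w2, dg_val]
    fin_cases i <;> fin_cases j <;> simp [sq]
  rw [hw, mul_diagonal, diagonal_mul]
  unfold sgm
  fin_cases i <;> fin_cases j <;> simp
  · ring
  · ring
  · linear_combination (-(star (zt m) * star a * (zt m * star (zt m) + 1))) * hz
  · ring
  · ring
  · linear_combination (-(al m * star (zt m) * star a * (zt m * star (zt m) + 1))) * hz
  · linear_combination (-(zt m ^ 2 * a)) * hz
  · linear_combination (-(zt m ^ 2 * a * star (al m))) * hz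

section

variable (m : ℕ) (Hs : Subgroup (SU (Fm m))) (h12 : ∀ g : LL, m12 m g ∈ Hs)
  (h01 : ∀ g : LL, m01 m g ∈ Hs)

include h12 h01

lemma w1_mem : w1 m ∈ Hs := by
  have : w1 m = (m12 m n13)⁻¹ * m01 m n13 := by rw [w1_rel]; group
  rw [this]
  exact mul_mem (inv_mem (h12 _)) (h01 _)

lemma w2_mem : w2 m ∈ Hs := by
  have : w2 m = m12 m n12 * w1 m * (m12 m n12)⁻¹ := by rw [w2_rel]; group
  rw [this]
  exact mul_mem (mul_mem (h12 _) (w1_mem m Hs h12 h01)) (inv_mem (h12 _))

/-- the additive group of first parameters -/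
def BB : AddSubgroup (Fm m) where
  carrier := {a | ∃ (t : Fm m) (h : t + star t + a * star a = 0),
    sg (al m) a t (al_rel m) h ∈ Hs}
  add_mem' := by
    rintro a b ⟨t, h, ha⟩ ⟨s, h', hb⟩
    refine ⟨t + s - star a * b, sg_rel h h', ?_⟩
    rw [← sg_mul (al m) a t b s (al_rel m) h h']
    exact mul_mem ha hb
  zero_mem' := by
    refine ⟨0, by simp, ?_⟩
    have : sg (al m) 0 0 (al_rel m) (by simp) = 1 := by
      apply Subtype.ext
      ext1 i j
      change sgm (al m) 0 0 i j = (1 : Matrix (Fin 3) (Fin 3) (Fm m)) i j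
      unfold sgm
      fin_cases i <;> fin_cases j <;> simp
    rw [this]
    exact one_mem _
  neg_mem' := by
    rintro a ⟨t, h, ha⟩
    have h' : star t + star (star t) + (-a) * star (-a) = 0 := by
      rw [star_star, star_neg]; linear_combination h
    refine ⟨star t, h', ?_⟩
    have : sg (al m) (-a) (star t) (al_rel m) h' = (sg (al m) a t (al_rel m) h)⁻¹ := by
      rw [eq_inv_iff_mul_eq_one, sg_mul]
      apply Subtype.ext
      ext1 i j
      change sgm (al m) _ _ i j = (1 : Matrix (Fin 3) (Fin 3) (Fm m)) i j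
      have h0 : -a + a = 0 := by ring
      have h1 : star t + t - star (-a) * a = 0 := by rw [star_neg]; linear_combination h
      rw [h0, h1]
      unfold sgm
      fin_cases i <;> fin_cases j <;> simp
    rw [this]
    exact inv_mem ha

lemma BB_top : BB m Hs = ⊤ := by
  apply gen_top (io m) (zt m ^ 3) (7 ^ (2 * m + 1)) (card_Fm m) (zt_order m)
  intro c j
  induction j with
  | zero =>
    rw [pow_zero, mul_one]
    have hrel : (-(c * star c) / 2 : k7) + star (-(c * star c) / 2) + c * star c = 0 := by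
      have hs2 : star (2 : k7) = 2 := by decide +kernel
      rw [star_div₀, star_neg, hs2, star_mul', star_star]
      have := k7_two
      field_simp
      ring
    refine ⟨io m (-(c * star c) / 2), io_al_rel m hrel, ?_⟩
    rw [← m12_sg m c _ hrel]
    exact h12 _
  | succ j ih =>
    obtain ⟨t, h, ha⟩ := ih
    have e : io m c * (zt m ^ 3) ^ (j + 1) = zt m ^ 3 * (io m c * (zt m ^ 3) ^ j) := by ring
    rw [e]
    refine ⟨t, th_rel m _ t h, ?_⟩
    have k := th_conj m _ t h
    have k2 : sg (al m) (zt m ^ 3 * (io m c * (zt m ^ 3) ^ j)) t (al_rel m) (th_rel m _ t h) =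
        (w1 m * w2 m) * sg (al m) _ t (al_rel m) h * (w1 m * w2 m)⁻¹ := by
      rw [k]; group
    rw [k2]
    have hw := mul_mem (w1_mem m Hs h12 h01) (w2_mem m Hs h12 h01)
    exact mul_mem (mul_mem hw ha) (inv_mem hw)

lemma center_mem (c : Fm m) (hc : c + star c + (0 : Fm m) * star 0 = 0) :
    sg (al m) 0 c (al_rel m) hc ∈ Hs := by
  have hA : c / 2 ∈ BB m Hs := by rw [BB_top m Hs h12 h01]; trivial
  have hB : (1 : Fm m) ∈ BB m Hs := by rw [BB_top m Hs h12 h01]; trivial
  obtain ⟨t, h, ha⟩ := hB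
  obtain ⟨s, h', hb⟩ := hA
  have key : sg (al m) 0 c (al_rel m) hc = sg (al m) (c / 2) s (al_rel m) h' *
      sg (al m) 1 t (al_rel m) h *
      (sg (al m) 1 t (al_rel m) h * sg (al m) (c / 2) s (al_rel m) h')⁻¹ := by
    rw [eq_mul_inv_iff_mul_eq, sg_mul, sg_mul, sg_mul]
    have h2 := two_Fm m
    have hs2 : star (2 : Fm m) = 2 := by simp
    apply sg_congr
    · ring
    · rw [star_div₀, star_zero, star_one, hs2]
      rw [star_zero] at hc
      have h3 : c / 2 * 2 = c := div_mul_cancel₀ _ h2
      linear_combination (1 / 2) * hc - h3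
  rw [key]
  exact mul_mem (mul_mem hb ha) (inv_mem (mul_mem ha hb))

lemma stb_le (M : SU (Fm m)) (hM : act M (uv (al m)) = uv (al m)) : M ∈ Hs := by
  obtain ⟨a, t, h, rfl⟩ := stb_u (two_Fm m) (al_rel m) M hM
  have hA : a ∈ BB m Hs := by rw [BB_top m Hs h12 h01]; trivial
  obtain ⟨s, h', ha⟩ := hA
  have hc : (t - s) + star (t - s) + (0 : Fm m) * star 0 = 0 := by
    rw [star_sub, star_zero]
    linear_combination h - h'
  have key : sg (al m) a t (al_rel m) h = sg (al m) 0 (t - s) (al_rel m) hc *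
      sg (al m) a s (al_rel m) h' := by
    rw [sg_mul]
    apply sg_congr
    · ring
    · rw [star_zero]; ring
  rw [key]
  exact mul_mem (center_mem m Hs h12 h01 _ hc) ha

end

/-- the swapping element -/
def nsw : LL := dg ![1, -1, -1] (by intro i; fin_cases i <;> simp) (by simp)

lemma nsw_val (i j : Fin 3) : nsw.1 i j = if i = j then (![1, -1, -1] : Fin 3 → k7) i else 0 :=
  dg_val _ _ _ i j

lemma nsw_u (m : ℕ) (β : Fm m) : act (m12 m nsw) (uv β) = uv (-β) := by
  unfold act uv
  apply ext3 <;> simp [mulVec, dotProduct, Fin.sum_univ_three, m12_apply, nsw_val]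

end Pool.Agent.TH16.PT
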