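import Pool.Agent.TH16.PT.Ang

/-! Fixed vectors for groups generated by three copies of the finite group,
glued along vector stabilizers. -/

set_option autoImplicit false

namespace Pool.Agent.TH16.PT

open Matrix
open scoped InnerProductSpace

/-- stabilizer subgroup of a vector -/
def stb {K : Type*} [Field K] [StarRing K] (f : Fin 3 → K) : Subgroup (SU K) where
  carrier := {g | act g f = f}
  mul_mem' := by
    intro a b ha hb
    change act (a * b) f = f
    rw [act_mul, hb, ha]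
  one_mem' := act_one f
  inv_mem' := by
    intro a ha
    change act a⁻¹ f = f
    have : act a f = f := ha
    conv_lhs => rw [← this]
    rw [act_inv_act]

lemma mem_stb {K : Type*} [Field K] [StarRing K] (f : Fin 3 → K) (g : SU K) :
    g ∈ stb f ↔ act g f = f := Iff.rfl

noncomputable instance (f : Fin 3 → k7) : Fintype (stb f) := Fintype.ofFinite _

variable {H : Type*} [NormedAddCommGroup H] [InnerProductSpace ℂ H] [CompleteSpace H]

/-- average over a stabilizer -/
noncomputable def avS (π : LL →* unitary (H →L[ℂ] H)) (f : Fin 3 → k7) : H →ₗ[ℂ] H :=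
  av (π.comp (stb f).subtype)

lemma avS_congr (π π' : LL →* unitary (H →L[ℂ] H)) (f : Fin 3 → k7)
    (h : ∀ g, act g f = f → π g = π' g) : avS π f = avS π' f := by
  unfold avS
  congr 1
  ext1 s
  exact h s.1 s.2

lemma avS_inv (π : LL →* unitary (H →L[ℂ] H)) (f : Fin 3 → k7) (x : H) (hx : avS π f x = x)
    (g : LL) (hg : act g f = f) : (π g : H →L[ℂ] H) x = x := by
  rw [← hx]
  exact pi_av (π.comp (stb f).subtype) ⟨g, hg⟩ x

lemma isPair (π : LL →* unitary (H →L[ℂ] H)) (f f' : Fin 3 → k7) (h1 : hf f f = 1)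
    (h2 : hf f' f' = 1) (h3 : hf f f' = 0) : IsPair (avS π f) (avS π f') (av π) (41 / 100) := by
  refine ⟨av_isOP π, ?_, ?_, ?_⟩
  · intro x
    exact av_fix _ _ fun a => pi_av π a.1 x
  · intro x
    exact av_fix _ _ fun a => pi_av π a.1 x
  · intro a b ha ha' hb
    apply angle π f f' h1 h2 h3 a b
    · exact fun g hg => avS_inv π f a ha g hg
    · exact fun g hg => avS_inv π f' b hb g hg
    · rw [av_apply] at ha'
      rcases smul_eq_zero.mp ha' with h | h
      · exact absurd h (inv_ne_zero card_ne)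
      · exact h

omit [CompleteSpace H] in
lemma fix_of_pair {P Q R : H →ₗ[ℂ] H} (h : IsPair P Q R (41 / 100)) (a : H) (hP : P a = a)
    (hQ : Q a = a) : R a = a := by
  have h1 := h.ang (a - R a) (a - R a) (by rw [map_sub, hP, h.PR])
    (by rw [map_sub, h.opR.idem, sub_self]) (by rw [map_sub, hQ, h.QR])
  have h2 : ‖⟪a - R a, a - R a⟫_ℂ‖ = ‖a - R a‖ ^ 2 := by
    rw [inner_self_eq_norm_sq_to_K]
    simp
  rw [h2] at h1
  have h3 : ‖a - R a‖ = 0 := by nlinarith [norm_nonneg (a - R a)]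
  rw [norm_eq_zero, sub_eq_zero] at h3
  exact h3.symm

theorem propT {G : Type*} [Group G] (l01 l12 l20 : LL →* G)
    (c1 : ∀ g : LL, act g e2 = e2 → l12 g = l01 g)
    (c2 : ∀ g : LL, act g e0 = e0 → l20 g = l12 g)
    (c0 : ∀ g : LL, act g e1 = e1 → l01 g = l20 g)
    (hgen : Subgroup.closure (Set.range l01 ∪ Set.range l12 ∪ Set.range l20) = ⊤)
    (ρ : G →* unitary (H →L[ℂ] H))
    (hal : ∀ (S : Finset G) (ε : ℝ), 0 < ε →
      ∃ v : H, ‖v‖ = 1 ∧ ∀ s ∈ S, ‖(ρ s : H →L[ℂ] H) v - v‖ < ε) :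
    ∃ v : H, v ≠ 0 ∧ ∀ g : G, (ρ g : H →L[ℂ] H) v = v := by
  classical
  set p01 := ρ.comp l01 with hp01
  set p12 := ρ.comp l12 with hp12
  set p20 := ρ.comp l20 with hp20
  -- stabilizer averages: P0 from e1, P1 from e2, P2 from e0
  have hP1 : avS p12 e2 = avS p01 e2 := avS_congr _ _ _ fun g hg => by
    rw [hp12, hp01]; simp [c1 g hg]
  have hP2 : avS p20 e0 = avS p12 e0 := avS_congr _ _ _ fun g hg => by
    rw [hp12, hp20]; simp [c2 g hg]
  have hP0 : avS p01 e1 = avS p20 e1 := avS_congr _ _ _ fun g hg => by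
    rw [hp01, hp20]; simp [c0 g hg]
  have u0 : hf (e0 : Fin 3 → k7) e0 = 1 := by unfold hf e0; simp
  have u1 : hf (e1 : Fin 3 → k7) e1 = 1 := by unfold hf e1; simp
  have u2 : hf (e2 : Fin 3 → k7) e2 = 1 := by unfold hf e2; simp
  have u12 : hf (e1 : Fin 3 → k7) e2 = 0 := by unfold hf e1 e2; simp
  have u20 : hf (e2 : Fin 3 → k7) e0 = 0 := by unfold hf e2 e0; simp
  have u01 : hf (e0 : Fin 3 → k7) e1 = 0 := by unfold hf e0 e1; simp
  have q01 : IsPair (avS p01 e1) (avS p01 e2) (av p01) (41 / 100) := isPair p01 e1 e2 u1 u2 u12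
  have q12 : IsPair (avS p01 e2) (avS p12 e0) (av p12) (41 / 100) := by
    rw [← hP1]; exact isPair p12 e2 e0 u2 u0 u20
  have q20 : IsPair (avS p12 e0) (avS p01 e1) (av p20) (41 / 100) := by
    rw [← hP2, hP0]; exact isPair p20 e0 e1 u0 u1 u01
  obtain ⟨v, hv, hS⟩ := hal (Finset.univ.image l01 ∪ Finset.univ.image l12) (1 / 100)
    (by norm_num)
  obtain ⟨a, ha, a0, a1, a2⟩ := exists_common (av_cont _) (av_cont _) (av_cont _)
    (av_isOP _) (av_isOP _) (av_isOP _) q01 q12 q20 v hv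
    (av_dist _ v _ fun g => le_of_lt (hS _ (Finset.mem_union_left _
      (Finset.mem_image_of_mem _ (Finset.mem_univ g.1)))))
    (av_dist _ v _ fun g => le_of_lt (hS _ (Finset.mem_union_left _
      (Finset.mem_image_of_mem _ (Finset.mem_univ g.1)))))
    (av_dist _ v _ fun g => le_of_lt (hS _ (Finset.mem_union_right _
      (Finset.mem_image_of_mem _ (Finset.mem_univ g.1)))))
  refine ⟨a, ha, ?_⟩
  have r01 : av p01 a = a := fix_of_pair q01 a a0 a1
  have r12 : av p12 a = a := fix_of_pair q12 a a1 a2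
  have r20 : av p20 a = a := fix_of_pair q20 a a2 a0
  intro g
  have hg : g ∈ Subgroup.closure (Set.range l01 ∪ Set.range l12 ∪ Set.range l20) := by
    rw [hgen]; trivial
  induction hg using Subgroup.closure_induction with
  | mem x hx =>
    rcases hx with (⟨y, rfl⟩ | ⟨y, rfl⟩) | ⟨y, rfl⟩
    · rw [← r01]; exact pi_av p01 y a
    · rw [← r12]; exact pi_av p12 y a
    · rw [← r20]; exact pi_av p20 y a
  | one => simp
  | mul x y _ _ hx hy => rw [map_mul, unit_mul, hy, hx]
  | inv x _ hx =>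
    rw [map_inv]
    conv_lhs => rw [← hx]
    rw [← unit_mul, inv_mul_cancel]
    rfl

end Pool.Agent.TH16.PT
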