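import Pool.Agent.TH16.PT.PropT

/-! Unipotent elements and the stabilizer of an isotropic vector. -/

set_option autoImplicit false

namespace Pool.Agent.TH16.PT

open Matrix

variable {K : Type*} [Field K] [StarRing K]

/-- isotropic vector -/
def uv (α : K) : Fin 3 → K := ![1, α, 0]

/-- matrix of a unipotent element -/
def sgm (α a t : K) : Matrix (Fin 3) (Fin 3) K :=
  !![1 + t, t * star α, -star a; t * α, 1 - t, -(star a * α); a, a * star α, 1]

lemma sgm_mem (α a t : K) (hα : α * star α = -1) (h : t + star t + a * star a = 0) :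
    sgm α a t ∈ SU K := by
  rw [mem_specialUnitaryGroup_iff, mem_unitaryGroup_iff', star_eq_conjTranspose]
  constructor
  · ext i j
    fin_cases i <;> fin_cases j <;>
      simp [sgm, Matrix.mul_apply, Fin.sum_univ_three, conjTranspose_apply]
    · linear_combination h + t * star t * hα
    · linear_combination star α * h
    · linear_combination -(star t * star a) * hα
    · linear_combination α * h
    · linear_combination (t * star t + a * star a) * hα - h
    · ring
    · linear_combination -(a * t) * hα
    · ring
    · linear_combination (a * star a) * hα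
  · rw [sgm, Matrix.det_fin_three]
    simp
    linear_combination (-t ^ 2 + a * star a * (1 - t)) * hα

/-- unipotent element -/
def sg (α a t : K) (hα : α * star α = -1) (h : t + star t + a * star a = 0) : SU K :=
  ⟨sgm α a t, sgm_mem α a t hα h⟩

lemma sg_rel {a b t s : K} (h : t + star t + a * star a = 0) (h' : s + star s + b * star b = 0) :
    (t + s - star a * b) + star (t + s - star a * b) + (a + b) * star (a + b) = 0 := by
  simp only [star_sub, star_add, star_mul', star_star]
  linear_combination h + h'

lemma sg_mul (α a t b s : K) (hα : α * star α = -1) (h : t + star t + a * star a = 0)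
    (h' : s + star s + b * star b = 0) :
    sg α a t hα h * sg α b s hα h' = sg α (a + b) (t + s - star a * b) hα (sg_rel h h') := by
  apply Subtype.ext
  change sgm α a t * sgm α b s = sgm α (a + b) (t + s - star a * b)
  ext i j
  fin_cases i <;> fin_cases j <;>
    simp [sgm, Matrix.mul_apply, Fin.sum_univ_three]
  · linear_combination (t * s) * hα
  · ring
  · linear_combination -(t * star b) * hα
  · ring
  · linear_combination (t * s - star a * b) * hα
  · ring
  · linear_combination (a * s) * hα
  · ring
  · linear_combination -(a * star b) * hα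

lemma sg_congr (α : K) {a b t s : K} (hα : α * star α = -1) (h : t + star t + a * star a = 0)
    (h' : s + star s + b * star b = 0) (hab : a = b) (hts : t = s) :
    sg α a t hα h = sg α b s hα h' := by
  subst hab hts
  rfl

lemma sg_u (α a t : K) (hα : α * star α = -1) (h : t + star t + a * star a = 0) :
    act (sg α a t hα h) (uv α) = uv α := by
  unfold act sg uv
  apply ext3 <;> simp [sgm, mulVec, dotProduct, Fin.sum_univ_three]
  · linear_combination t * hα
  · ring
  · linear_combination a * hα

lemma sg_u' (α a t : K) (hα : α * star α = -1) (h : t + star t + a * star a = 0) :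
    act (sg α a t hα h) (uv (-α)) = ![1 + 2 * t, α * (2 * t - 1), 2 * a] := by
  unfold act sg uv
  apply ext3 <;> simp [sgm, mulVec, dotProduct, Fin.sum_univ_three]
  · linear_combination -t * hα
  · ring
  · linear_combination -a * hα

lemma al_ne {α : K} (hα : α * star α = -1) : α ≠ 0 := by
  rintro rfl
  simp at hα

lemma fix2 (h2 : (2 : K) ≠ 0) {α : K} (hα : α * star α = -1) (M : SU K)
    (h : act M (uv α) = uv α) (h' : act M (uv (-α)) = uv (-α)) : M = 1 := by
  have ha := al_ne hα
  have k0 : (e0 : Fin 3 → K) = (2⁻¹ : K) • (uv α + uv (-α)) := by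
    apply ext3 <;> simp [e0, uv]
    rw [one_add_one_eq_two, inv_mul_cancel₀ h2]
  have k1 : (e1 : Fin 3 → K) = ((2 * α)⁻¹ : K) • (uv α - uv (-α)) := by
    apply ext3 <;> simp [e1, uv]
    field_simp
    ring
  apply fix_e01
  · rw [k0, act_smul, act_add, h, h']
  · rw [k1, act_smul, act_sub, h, h']

lemma iso_par {α : K} (hα : α * star α = -1) (x : Fin 3 → K) (hx : hf x x = 0)
    (hxu : hf x (uv α) = 0) : ∃ c : K, x = c • uv α := by
  unfold hf at hx
  unfold hf uv at hxu
  simp at hxu
  have h0 : x 0 = -(x 1 * star α) := by linear_combination hxu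
  have h2 : x 2 = 0 := by
    rw [h0] at hx
    simp at hx
    have : x 2 * star (x 2) = 0 := by linear_combination hx - (x 1 * star (x 1)) * hα
    rcases mul_eq_zero.mp this with h | h
    · exact h
    · exact star_eq_zero.mp h
  refine ⟨x 0, ?_⟩
  unfold uv
  apply ext3
  · simp
  · simp
    rw [h0]
    linear_combination (x 1) * hα
  · simp [h2]

lemma trans_u (h2 : (2 : K) ≠ 0) {α : K} (hα : α * star α = -1) (x : Fin 3 → K) (hx : hf x x = 0)
    (hxu : hf x (uv α) = 2) : ∃ (a t : K) (h : t + star t + a * star a = 0),
      act (sg α a t hα h) (uv (-α)) = x := by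
  unfold hf at hx
  unfold hf uv at hxu
  simp at hxu
  have h0 : x 0 = 2 - (x 1 * star α) := by linear_combination hxu
  have hs2 : star (2 : K) = 2 := by
    simp
  have hs : (x 0 - 1) / 2 + star ((x 0 - 1) / 2) + (x 2 / 2) * star (x 2 / 2) = 0 := by
    rw [star_div₀, star_div₀, hs2, star_sub, star_one]
    rw [h0] at hx ⊢
    simp only [star_sub, star_mul', star_star, hs2] at hx ⊢
    field_simp
    linear_combination hx - (x 1 * star (x 1)) * hα
  refine ⟨x 2 / 2, (x 0 - 1) / 2, hs, ?_⟩
  rw [sg_u']
  apply ext3
  · simp; field_simp; ring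
  · simp
    rw [h0]
    field_simp
    linear_combination -(x 1) * hα
  · simp; field_simp

lemma hf_uv (α : K) (hα : α * star α = -1) : hf (uv α) (uv α) = 0 := by
  unfold hf uv
  simp
  linear_combination hα

lemma hf_uv' (α : K) (hα : α * star α = -1) : hf (uv (-α)) (uv α) = 2 := by
  unfold hf uv
  simp
  linear_combination -hα

lemma neg_al {α : K} (hα : α * star α = -1) : -α * star (-α) = -1 := by
  rw [star_neg]; linear_combination hα

lemma stb_u (h2 : (2 : K) ≠ 0) {α : K} (hα : α * star α = -1) (M : SU K)
    (h : act M (uv α) = uv α) : ∃ (a t : K) (h : t + star t + a * star a = 0),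
      M = sg α a t hα h := by
  obtain ⟨a, t, ht, hat⟩ := trans_u h2 hα (act M (uv (-α)))
    (by rw [hf_act, hf_uv _ (neg_al hα)]) (by
      conv_lhs => rw [← h]
      rw [hf_act, hf_uv' _ hα])
  refine ⟨a, t, ht, ?_⟩
  have : (sg α a t hα ht)⁻¹ * M = 1 := by
    apply fix2 h2 hα
    · rw [act_mul, h]
      have := act_inv_act (sg α a t hα ht) (uv α)
      rwa [sg_u] at this
    · rw [act_mul, ← hat, act_inv_act]
  rw [inv_mul_eq_one] at this
  exact this.symm

/-- the stabilizer of an isotropic vector is solvable -/
lemma solv (h2 : (2 : K) ≠ 0) {α : K} (hα : α * star α = -1) : Group.IsSolvable (stb (uv α)) := by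
  let A : stb (uv α) →* Multiplicative K :=
    { toFun := fun M => Multiplicative.ofAdd (M.1.1 2 0)
      map_one' := by simp
      map_mul' := by
        rintro ⟨M, hM⟩ ⟨N, hN⟩
        obtain ⟨a, t, ht, rfl⟩ := stb_u h2 hα M hM
        obtain ⟨b, s, hs, rfl⟩ := stb_u h2 hα N hN
        rw [← ofAdd_add]
        congr 1
        change ((sg α a t hα ht * sg α b s hα hs : SU K)).1 2 0 = _
        rw [sg_mul]
        simp [sg, sgm] }
  have hk : Group.IsSolvable A.ker := by
    apply Group.isSolvable_of_comm
    rintro ⟨⟨M, hM⟩, hM'⟩ ⟨⟨N, hN⟩, hN'⟩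
    obtain ⟨a, t, ht, rfl⟩ := stb_u h2 hα M hM
    obtain ⟨b, s, hs, rfl⟩ := stb_u h2 hα N hN
    have ha : a = 0 := by
      have : Multiplicative.ofAdd ((sg α a t hα ht).1 2 0) = Multiplicative.ofAdd (0 : K) := hM'
      have := Multiplicative.ofAdd.injective this
      simpa [sg, sgm] using this
    have hb : b = 0 := by
      have : Multiplicative.ofAdd ((sg α b s hα hs).1 2 0) = Multiplicative.ofAdd (0 : K) := hN'
      have := Multiplicative.ofAdd.injective this
      simpa [sg, sgm] using this
    apply Subtype.ext
    apply Subtype.ext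
    change sg α a t hα ht * sg α b s hα hs = sg α b s hα hs * sg α a t hα ht
    rw [sg_mul, sg_mul]
    apply sg_congr
    · ring
    · rw [ha, hb]; simp; ring
  exact Group.isSolvable_of_ker_le_range A.ker.subtype A (by rw [Subgroup.range_subtype])

end Pool.Agent.TH16.PT
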